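import Pool.Agent.N975.S17.Cmp
import Pool.Agent.N975.ChE2
import Pool.Agent.N972.P17.Defs2
import Pool.Agent.N972.P17.Defs3

/-!
# SYMR: the symbol at the cusps equivalent to infinity; even characters of the classes of P17
-/

set_option autoImplicit false

open Finset

namespace Pool.Agent.N975.S17

open Pool.Agent.N972.P17
open Pool.Agent.N969.P15 (un Ev chE)
open Pool.Agent.N975.ChE
open Pool.Agent.N975.Sym (ev kq act act_inv eqv ev_act kq_eq dec2 ev10 ev_neg key bound)

noncomputable section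

theorem sgn_id3 (al de ep : ℤ) (h1 : al = 0 ∨ al = 1 ∨ al = -1)
    (h3 : de = 0 ∨ de = 1 ∨ de = -1) (h4 : ep = 0 ∨ ep = 1 ∨ ep = -1) (k : ℤ) :
    (if al ≠ 0 ∧ ep ≠ 0 then k * (al - ep) else 0) =
      (if al ≠ 0 ∧ de ≠ 0 then k * (al - de) else 0) +
      (if de ≠ 0 ∧ ep ≠ 0 then k * (de - ep) else 0) +
      (if al = 0 then k * (ep - de) else 0) - (if ep = 0 then k * (al - de) else 0) +
      (if de = 0 then k * (al - ep) else 0) := by
  rcases h1 with rfl | rfl | rfl <;>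
    rcases h3 with rfl | rfl | rfl <;> rcases h4 with rfl | rfl | rfl <;>
    simp

/-- the termwise identity -/
theorem U_id3 {a b c d : ℤ} (h : a * d - b * (17 * c) = 1) (q : ℤ × ℤ × ℤ) :
    U 1 0 a (17 * c) q = U 1 0 b d q + (fun _ => 0) q + Zi a (17 * c) b d q -
      Zi d (-(17 * c)) 0 1 (eqv a b (17 * c) d h q) +
      Zo d (-(17 * c)) 1 0 (eqv a b (17 * c) d h q) - (fun _ => 0) q := by
  have hc : (17 : ℤ) ∣ 17 * c := ⟨c, rfl⟩
  have hz := U_zero_inf (act a b (17 * c) d q)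
  show U 1 0 a (17 * c) q = U 1 0 b d q + 0 + Zi a (17 * c) b d q -
      Zi d (-(17 * c)) 0 1 (act a b (17 * c) d q) +
      Zo d (-(17 * c)) 1 0 (act a b (17 * c) d q) - 0
  by_cases hq : inF q
  · have q1 := inF_act h hc hq
    have k1 := kq_act h hq
    have e2 : ev (act a b (17 * c) d q) 1 0 = ev q a (17 * c) := by
      rw [ev_act, mul_one, mul_one, mul_zero, mul_zero, add_zero, add_zero]
    have e3 : ev (act a b (17 * c) d q) 0 1 = ev q b d := by
      rw [ev_act, mul_one, mul_one, mul_zero, mul_zero, zero_add, zero_add]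
    have e4 : ev (act a b (17 * c) d q) d (-(17 * c)) = ev q 1 0 := by
      rw [ev_act]
      congr 1
      · linear_combination h
      · ring
    have c1 : (act a b (17 * c) d q).1 = ev q a (17 * c) := by
      rw [← e2, ev10]
    have c2 : (act a b (17 * c) d q).2.2 = ev q b d := by
      rw [← e3, ev01]
    have c4 : q.1 = ev q 1 0 := (ev10 q).symm
    unfold U Zi Zo
    unfold U at hz
    simp only [hq, q1, true_and, k1, e2, e3, e4, c1, c2] at hz ⊢
    rw [c4]
    have hid := sgn_id3 (Int.sign (ev q 1 0)) (Int.sign (ev q b d))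
      (Int.sign (ev q a (17 * c))) (sign_cases _) (sign_cases _) (sign_cases _) (kq q)
    simp only [ne_eq, Int.sign_eq_zero_iff_zero] at hid hz ⊢
    linarith
  · have q1 : ¬ inF (act a b (17 * c) d q) := fun h2 => hq ((inF_act_iff h hc).1 h2)
    unfold U Zi Zo
    simp only [hq, q1, false_and, if_false]
    ring

/-- the symbol at the cusps equivalent to infinity, all signs -/
theorem GG_inf {a b c d : ℤ} (h : a * d - 17 * (b * c) = 1) (hc : c ≠ 0) :
    2 * Fp a (17 * c) + sg' a (17 * c) + sg' d (17 * c) = GG b c d := by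
  have g : a * d - b * (17 * c) = 1 := by linear_combination h
  have hd := d_ne h
  have hc17 : 17 * c ≠ 0 := by omega
  have fU1 := U_fin (x := b) hd
  obtain ⟨fZ1, s1⟩ := Zi_all (x := a) (y := b) hc17 hd
  obtain ⟨fZ2', s2⟩ := Zi_all (x := d) (M := -(17 * c)) (y := 0) (by omega) one_ne_zero
  have fZ2 := fin_eqv fZ2' (eqv a b (17 * c) d g)
  obtain ⟨fZ3', s3⟩ := Zo_all (c := c) (c' := 0) hd one_ne_zero
  rw [mul_zero, neg_zero] at fZ3' s3
  have fZ3 := fin_eqv fZ3' (eqv a b (17 * c) d g)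
  have f0 : (Function.support fun _ : ℤ × ℤ × ℤ => (0 : ℤ)).Finite := by
    simp
  have hU := six (U_id3 g) fU1 f0 fZ1 fZ2 fZ3 f0
  rw [sum_eqv, sum_eqv, U_sum hd, U_sum hc17, s1, s2, s3, sg'_zero, finsum_zero] at hU
  have e : sg' d (-(17 * c)) = -sg' d (17 * c) := by
    have h1 := sg'_neg_neg (x := -d) hc17
    rw [neg_neg] at h1
    rw [h1, sg'_neg hc17]
  rw [e] at hU
  unfold GG
  linarith

/-- **SYMR** -/
theorem t_SYMR : S_SYMR := by
  intro a b c d h hc hd
  have h1 := GG_inf h hc.ne'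
  rw [GG_pos hd] at h1
  rw [← h1]
  unfold Gi sg'
  rw [if_pos (by omega), if_pos (by omega)]

/-! ### the characters -/

theorem chr0E {n : ℕ} (hE : Ev n) : Chr0 n (chE n) where
  mul a b := chE_mul n a b
  per a b h := chE_mod (ev_mod hE) h
  odd a := by
    have hm : chE n (-1) = -1 := by
      obtain ⟨k, hsq, hk, hcase, hpf⟩ := ev_odd hE
      have hko : Odd k := Nat.odd_iff.2 hk
      unfold chE
      rw [hpf, jac_sqfree _ hsq, jacobiSym.at_neg_one hko]
      unfold N969.P15.c2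
      rcases hcase with ⟨rfl, h1⟩ | rfl
      · rw [if_neg (by norm_num), if_pos (by omega), if_neg (by norm_num),
          ZMod.χ₄_nat_one_mod_four h1]
        norm_num
      · rw [if_neg (by norm_num), if_neg (by omega)]
        rcases (by omega : k % 4 = 1 ∨ k % 4 = 3) with h | h
        · rw [if_pos (by omega), if_neg (by norm_num), ZMod.χ₄_nat_one_mod_four h]
          norm_num
        · rw [if_neg (by omega), if_pos (by norm_num), ZMod.χ₄_nat_three_mod_four h]
          norm_num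
    rw [show -a = -1 * a by ring, chE_mul, hm]
    ring
  one := chE_one n
  zero u h := chE_zero (ev_mod hE) h
  pm u h := chE_pm (ev_mod hE) h

theorem jac_neg_one : jacobiSym (-1) 17 = 1 := by
  rw [jacobiSym.at_neg_one (by decide)]
  decide

theorem jac_four : jacobiSym 4 17 = 1 := by
  have h : (4 : ℤ) = 2 ^ 2 := by norm_num
  rw [h]
  exact jacobiSym.sq_one' (by decide)

theorem chrE {n : ℕ} (hn : Cme n) : Chr n (chE n) where
  toChr0 := chr0E hn.1
  v17 := by
    obtain ⟨hE, h17⟩ := hn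
    have h1 := chE_prime hE (p := 17) (by norm_num) (by norm_num)
    obtain ⟨m, rfl, -, -⟩ := hE
    push_cast at h1 h17
    rw [h1]
    have e : (4 * (m : ℤ)) / 4 = m := by omega
    rw [e]
    have e2 : -(m : ℤ) = -1 * m := by ring
    rw [jacobiSym.mul_left, jac_four, one_mul] at h17
    rw [e2, jacobiSym.mul_left, jac_neg_one, one_mul, h17]

variable {R : Type*} [CommRing R] [IsDomain R] [CharZero R] {s : ℚ → R}

/-- the relation at the cusps equivalent to infinity -/
def AffInf (s : ℚ → R) : Prop := ∀ {A B C D : ℤ}, A * D - B * (17 * C) = 1 → C ≠ 0 →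
  s ((A : ℚ) / ((17 : ℚ) * C)) = s ((B : ℚ) / D)

/-- the character sum of the symbol, ramified case -/
theorem sum_symbR (H : Symb17 s) (H' : AffInf s) {n : ℕ} (hn : 0 < n) (h17 : 17 ∣ n) {χ : ℤ → ℤ}
    (X : Chr0 n χ) :
    2 * ∑ u ∈ un n, (χ u : R) * s ((u : ℚ) / n) = s (1 / 3) *
      ((2 * ∑ u ∈ un n, χ u * Fp u n +
        4 * ∑ u ∈ (range n).filter (fun u => 2 * u < n), χ u : ℤ) : R) := by
  have : NeZero n := ⟨hn.ne'⟩
  have hnz : (0 : ℤ) < n := by exact_mod_cast hn
  obtain ⟨c, rfl⟩ := h17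
  have hc0 : (c : ℤ) ≠ 0 := by
    intro h
    have : c = 0 := by exact_mod_cast h
    subst this
    simp at hn
  -- the values of the symbol
  have hval : ∀ u : (ZMod (17 * c))ˣ, 2 * s ((((u : ZMod (17 * c)).val : ℕ) : ℚ) / (17 * c : ℕ)) =
      s (1 / 3) * ((2 * Fp (((u : ZMod (17 * c)).val : ℕ) : ℤ) (17 * c : ℕ) +
        sg' (((u : ZMod (17 * c)).val : ℕ) : ℤ) (17 * c : ℕ) +
        sg' (((((u)⁻¹ : (ZMod (17 * c))ˣ) : ZMod (17 * c)).val : ℕ) : ℤ) (17 * c : ℕ) : ℤ) : R) := by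
    intro u
    set j : ℕ := ((u⁻¹ : (ZMod (17 * c))ˣ) : ZMod (17 * c)).val with hj
    have hdv : ((17 * c : ℕ) : ℤ) ∣ (((u : ZMod (17 * c)).val : ℕ) : ℤ) * (j : ℤ) - 1 := by
      rw [← ZMod.intCast_zmod_eq_zero_iff_dvd]
      push_cast
      rw [hj, ZMod.natCast_zmod_val, ZMod.natCast_zmod_val]
      have h7 : ((u : (ZMod (17 * c))ˣ) : ZMod (17 * c)) *
          ((u⁻¹ : (ZMod (17 * c))ˣ) : ZMod (17 * c)) = 1 := Units.mul_inv _
      linear_combination h7
    obtain ⟨b, hb⟩ := hdv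
    have hdet : (((u : ZMod (17 * c)).val : ℕ) : ℤ) * (j : ℤ) - 17 * (b * c) = 1 := by
      push_cast at hb
      linear_combination hb
    have h1 := symb_eq H hdet
    have h2 := H' (A := (((u : ZMod (17 * c)).val : ℕ) : ℤ)) (B := b) (C := c) (D := j)
      (by linear_combination hdet) hc0
    rw [← GG_inf hdet hc0, ← h2] at h1
    push_cast at h1 ⊢
    exact h1
  rw [sum_unZ, sum_unZ, Finset.mul_sum]
  have e1 : ∀ u : (ZMod (17 * c))ˣ, 2 * ((χ (((u : ZMod (17 * c)).val : ℕ) : ℤ) : R) *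
      s ((((u : ZMod (17 * c)).val : ℕ) : ℚ) / (17 * c : ℕ))) = s (1 / 3) *
        ((2 * (χ (((u : ZMod (17 * c)).val : ℕ) : ℤ) *
          Fp (((u : ZMod (17 * c)).val : ℕ) : ℤ) (17 * c : ℕ)) +
          χ (((u : ZMod (17 * c)).val : ℕ) : ℤ) *
            sg' (((u : ZMod (17 * c)).val : ℕ) : ℤ) (17 * c : ℕ) +
          χ (((u : ZMod (17 * c)).val : ℕ) : ℤ) *
            sg' (((((u)⁻¹ : (ZMod (17 * c))ˣ) : ZMod (17 * c)).val : ℕ) : ℤ) (17 * c : ℕ) : ℤ) :
              R) := by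
    intro u
    have h1 := hval u
    push_cast at h1 ⊢
    linear_combination (χ (((u : ZMod (17 * c)).val : ℕ) : ℤ) : R) * h1
  have e2 : ∑ u : (ZMod (17 * c))ˣ, χ (((u : ZMod (17 * c)).val : ℕ) : ℤ) *
        sg' (((((u)⁻¹ : (ZMod (17 * c))ˣ) : ZMod (17 * c)).val : ℕ) : ℤ) (17 * c : ℕ) =
      ∑ v : (ZMod (17 * c))ˣ, χ (((v : ZMod (17 * c)).val : ℕ) : ℤ) *
        sg' (((v : ZMod (17 * c)).val : ℕ) : ℤ) (17 * c : ℕ) := by
    refine Finset.sum_bij' (fun u _ => u⁻¹) (fun v _ => v⁻¹) (fun _ _ => mem_univ _)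
      (fun _ _ => mem_univ _) ?_ ?_ ?_
    · intro u _
      simp
    · intro v _
      simp
    · intro u _
      congr 1
      -- the character at the inverse
      set v : (ZMod (17 * c))ˣ := u⁻¹ with hv
      have h1 : χ ((((u : ZMod (17 * c)).val : ℕ) : ℤ) * (((v : ZMod (17 * c)).val : ℕ) : ℤ)) =
          χ 1 := by
        refine X.per _ _ ?_
        rw [← ZMod.intCast_zmod_eq_zero_iff_dvd]
        push_cast
        rw [ZMod.natCast_zmod_val, ZMod.natCast_zmod_val]
        have h7 : ((u : (ZMod (17 * c))ˣ) : ZMod (17 * c)) * (v : ZMod (17 * c)) = 1 := by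
          rw [hv]; exact Units.mul_inv _
        linear_combination h7
      rw [X.mul, X.one] at h1
      have h2 := X.pm _ (ZMod.val_coe_unit_coprime u)
      have h3 := X.pm _ (ZMod.val_coe_unit_coprime v)
      rcases h2 with h2 | h2 <;> rcases h3 with h3 | h3 <;> rw [h2, h3] at h1 ⊢ <;> omega
  have e3 : ∑ v : (ZMod (17 * c))ˣ, χ (((v : ZMod (17 * c)).val : ℕ) : ℤ) *
      sg' (((v : ZMod (17 * c)).val : ℕ) : ℤ) (17 * c : ℕ) =
      2 * ∑ u ∈ (range (17 * c)).filter (fun u => 2 * u < 17 * c), χ u := by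
    rw [← sum_unZ (fun j => χ j * sg' j (17 * c : ℕ)), sum_sg hn X]
  rw [Finset.sum_congr rfl fun u _ => e1 u, ← Finset.mul_sum, ← Int.cast_sum,
    Finset.sum_add_distrib, Finset.sum_add_distrib, e2, e3, ← Finset.mul_sum]
  congr 2
  ring

end

end Pool.Agent.N975.S17
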