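import Pool.Agent.N975.S17.Hom

/-!
# The odd modular symbol of level `17` and its character sums
-/

set_option autoImplicit false

open Finset

namespace Pool.Agent.N975.S17

open Pool.Agent.N972.P17
open Pool.Agent.N969.P15 (un)

noncomputable section

/-- the relations of the odd symbol of level `17` -/
structure Symb17 {R : Type*} [CommRing R] (s : ℚ → R) : Prop where
  per : ∀ x, s (x + 1) = s x
  neg : ∀ x, s (-x) = -s x
  aff : ∀ {A B C D : ℤ}, A * D - B * (17 * C) = 1 → ∀ r : ℚ, (17 : ℚ) * C * r + D ≠ 0 →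
    s ((A * r + B) / ((17 : ℚ) * C * r + D)) = s r + s ((B : ℚ) / D)

variable {R : Type*} [CommRing R] [IsDomain R] [CharZero R] {s : ℚ → R}

omit [IsDomain R] [CharZero R] in
theorem Symb17.zero [NoZeroSMulDivisors ℤ R] (H : Symb17 s) : s 0 = 0 := by
  have h := H.neg 0
  rw [neg_zero] at h
  exact OddHom.two_zero h

/-- the difference is an odd homomorphism -/
theorem oddHom (H : Symb17 s) : OddHom (fun _ b c d : ℤ =>
    2 * s ((b : ℚ) / d) - s (1 / 3) * (GG b c d : R)) where
  hom := by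
    intro a b c d a' b' c' d' h h'
    have hd := d_ne h
    have hd' := d_ne h'
    have hD : 17 * c * b' + d * d' ≠ 0 :=
      d_ne (a := a * a' + b * (17 * c')) (b := a * b' + b * d') (c := c * a' + d * c')
        (by linear_combination h' + (a' * d' - 17 * (b' * c')) * h)
    have hdq : (d : ℚ) ≠ 0 := by exact_mod_cast hd
    have hdq' : (d' : ℚ) ≠ 0 := by exact_mod_cast hd'
    have hDq : (17 : ℚ) * c * b' + d * d' ≠ 0 := by exact_mod_cast hD
    have h0 : (17 : ℚ) * c * ((b' : ℚ) / d') + d ≠ 0 := by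
      intro h1
      apply hDq
      field_simp at h1
      linear_combination h1
    have h1 := H.aff (A := a) (B := b) (C := c) (D := d) (by linear_combination h)
      ((b' : ℚ) / d') h0
    have e1 : ((a : ℚ) * ((b' : ℚ) / d') + b) / ((17 : ℚ) * c * ((b' : ℚ) / d') + d) =
        ((a * b' + b * d' : ℤ) : ℚ) / ((17 * c * b' + d * d' : ℤ) : ℚ) := by
      push_cast
      rw [div_eq_div_iff h0 hDq]
      field_simp
    rw [e1] at h1
    rw [h1, GG_hom h h']
    push_cast
    ring
  neg := by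
    intro a b c d h
    rw [GG_neg_neg (d_ne h)]
    push_cast
    rw [neg_div_neg_eq]
  odd := by
    intro a b c d h
    rw [GG_neg (d_ne h)]
    push_cast
    rw [neg_div, H.neg]
    ring
  hT := by
    have h1 := H.per 0
    rw [zero_add, H.zero] at h1
    rw [GG_T]
    norm_num
    exact h1
  hV := by
    rw [GG_V]
    norm_num
    exact H.zero
  h3 := by
    rw [GG_3]
    push_cast
    ring_nf

/-- **comparison**: the odd symbol in terms of the counting function -/
theorem symb_eq (H : Symb17 s) {a b c d : ℤ} (h : a * d - 17 * (b * c) = 1) :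
    2 * s ((b : ℚ) / d) = s (1 / 3) * (GG b c d : R) :=
  sub_eq_zero.1 ((oddHom H).zero d.natAbs a b c d h rfl)

/-! ### the character sum -/

/-- the properties of the characters which are used -/
structure Chr0 (n : ℕ) (χ : ℤ → ℤ) : Prop where
  mul : ∀ a b, χ (a * b) = χ a * χ b
  per : ∀ a b, (n : ℤ) ∣ a - b → χ a = χ b
  odd : ∀ a, χ (-a) = -χ a
  one : χ 1 = 1
  zero : ∀ u : ℕ, ¬ Nat.Coprime u n → χ u = 0
  pm : ∀ u : ℕ, Nat.Coprime u n → χ u = 1 ∨ χ u = -1

/-- the properties of the characters which are used, unramified case -/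
structure Chr (n : ℕ) (χ : ℤ → ℤ) : Prop extends Chr0 n χ where
  v17 : χ 17 = -1

/-- transport to units -/
theorem sum_unZ {M : ℕ} [NeZero M] {R : Type*} [AddCommMonoid R] (g : ℕ → R) :
    ∑ a ∈ un M, g a = ∑ u : (ZMod M)ˣ, g (u : ZMod M).val := by
  refine (Finset.sum_bij (fun (u : (ZMod M)ˣ) _ => (u : ZMod M).val) ?_ ?_ ?_ ?_).symm
  · intro u _
    exact Finset.mem_filter.2 ⟨Finset.mem_range.2 (ZMod.val_lt _), ZMod.val_coe_unit_coprime u⟩
  · intro u _ v _ h
    exact Units.ext (ZMod.val_injective M h)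
  · intro a ha
    have ha1 := Finset.mem_range.1 (Finset.mem_filter.1 ha).1
    have ha2 := (Finset.mem_filter.1 ha).2
    refine ⟨ZMod.unitOfCoprime a ha2, Finset.mem_univ _, ?_⟩
    rw [ZMod.coe_unitOfCoprime, ZMod.val_natCast, Nat.mod_eq_of_lt ha1]
  · intro u _
    rfl

theorem sg'_mod {x y M : ℤ} (hM : 0 < M) (h : M ∣ x - y) : sg' x M = sg' y M := by
  have h1 : x % M = y % M :=
    Int.emod_eq_emod_iff_emod_sub_eq_zero.2 (Int.emod_eq_zero_of_dvd h)
  unfold sg'
  rw [if_pos hM, if_pos hM]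
  unfold sg
  rw [h1]

/-- the sum of the signs -/
theorem sum_sg {n : ℕ} (hn : 0 < n) {χ : ℤ → ℤ} (H : Chr0 n χ) :
    ∑ u ∈ un n, χ u * sg' u n = 2 * ∑ u ∈ (range n).filter (fun u => 2 * u < n), χ u := by
  have e1 : ∑ u ∈ un n, χ u * sg' u n = ∑ u ∈ range n, χ u * sg' u n := by
    refine Finset.sum_subset (Finset.filter_subset _ _) fun j hj hj2 => ?_
    have : ¬ Nat.Coprime j n := fun h => hj2 (Finset.mem_filter.2 ⟨hj, h⟩)
    rw [H.zero j this, zero_mul]
  have hsg : ∀ u ∈ range n, χ u * sg' u n =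
      (if 2 * u < n then χ (u : ℤ) else 0) - (if n < 2 * u then χ (u : ℤ) else 0) := by
    intro u hu
    rw [mem_range] at hu
    have hun : ((u : ℤ)) % (n : ℤ) = u := Int.emod_eq_of_lt (by positivity) (by exact_mod_cast hu)
    have hnz : (0 : ℤ) < n := by exact_mod_cast hn
    have e : sg' (u : ℤ) n = if ((u : ℤ)) = 0 ∨ 2 * (u : ℤ) = n then 0 else
        if 2 * (u : ℤ) < n then 1 else -1 := by
      unfold sg'
      rw [if_pos hnz]
      unfold sg
      rw [hun]
    rw [e]
    rcases Nat.eq_zero_or_pos u with h0 | h0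
    · subst h0
      rw [if_pos (Or.inl Nat.cast_zero), if_pos (by omega), if_neg (by omega), mul_zero, sub_zero]
      push_cast
      have h1 := H.odd 0
      rw [neg_zero] at h1
      omega
    · rcases lt_trichotomy (2 * u) n with h1 | h1 | h1
      · rw [if_neg (by omega), if_pos (by omega), if_pos h1, if_neg (by omega), mul_one, sub_zero]
      · rw [if_pos (Or.inr (by exact_mod_cast h1)), if_neg (by omega), if_neg (by omega), mul_zero,
          sub_zero]
      · rw [if_neg (by omega), if_neg (by omega), if_neg (by omega), if_pos h1]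
        ring
  have e2 : ∑ u ∈ (range n).filter (fun u => n < 2 * u), χ u =
      -∑ u ∈ (range n).filter (fun u => 2 * u < n), χ u := by
    have h0 : χ 0 = 0 := by
      have h1 := H.odd 0
      rw [neg_zero] at h1
      omega
    have e3 : ∑ u ∈ (range n).filter (fun u => 2 * u < n), χ u =
        ∑ u ∈ (range n).filter (fun u => 0 < u ∧ 2 * u < n), χ u := by
      symm
      refine Finset.sum_subset ?_ ?_
      · intro u hu
        rw [mem_filter] at hu ⊢
        exact ⟨hu.1, hu.2.2⟩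
      · intro u hu hu2
        rw [mem_filter] at hu hu2
        have : u = 0 := by
          by_contra h
          exact hu2 ⟨hu.1, by omega, hu.2⟩
        rw [this]
        exact h0
    rw [e3, ← Finset.sum_neg_distrib]
    refine Finset.sum_bij (fun j _ => n - j) ?_ ?_ ?_ ?_
    · intro j hj
      rw [mem_filter, mem_range] at hj ⊢
      omega
    · intro i hi j hj h
      rw [mem_filter, mem_range] at hi hj
      omega
    · intro j hj
      rw [mem_filter, mem_range] at hj
      refine ⟨n - j, ?_, by omega⟩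
      rw [mem_filter, mem_range]
      omega
    · intro j hj
      rw [mem_filter, mem_range] at hj
      rw [← H.odd]
      refine H.per _ _ ⟨1, ?_⟩
      have : j ≤ n := by omega
      push_cast [this]
      ring
  rw [e1, Finset.sum_congr rfl hsg, Finset.sum_sub_distrib, ← Finset.sum_filter,
    ← Finset.sum_filter, e2]
  ring

/-- the character sum of the symbol -/
theorem sum_symb (H : Symb17 s) {n : ℕ} (hn : 0 < n) (h17 : ¬ 17 ∣ n) {χ : ℤ → ℤ}
    (X : Chr n χ) :
    2 * ∑ u ∈ un n, (χ u : R) * s ((u : ℚ) / n) = s (1 / 3) *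
      ((2 * ∑ u ∈ un n, χ u * Fp u n +
        4 * ∑ u ∈ (range n).filter (fun u => 2 * u < n), χ u : ℤ) : R) := by
  have : NeZero n := ⟨hn.ne'⟩
  have hnz : (0 : ℤ) < n := by exact_mod_cast hn
  have hc : Nat.Coprime 17 n := (Nat.Prime.coprime_iff_not_dvd (by norm_num)).2 h17
  set w : (ZMod n)ˣ := -ZMod.unitOfCoprime 17 hc with hw
  have hwv : (w : ZMod n) = -17 := by
    rw [hw, Units.val_neg, ZMod.coe_unitOfCoprime]; push_cast; rfl
  -- the values of the symbol
  have hval : ∀ u : (ZMod n)ˣ, 2 * s ((((u : ZMod n).val : ℕ) : ℚ) / n) =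
      s (1 / 3) * ((GG (((u : ZMod n).val : ℕ) : ℤ)
        (((((w * u)⁻¹ : (ZMod n)ˣ) : ZMod n).val : ℕ) : ℤ) n : ℤ) : R) := by
    intro u
    set j : ℕ := (((w * u)⁻¹ : (ZMod n)ˣ) : ZMod n).val with hj
    have hdv : (n : ℤ) ∣ 1 + 17 * ((((u : ZMod n).val : ℕ) : ℤ) * (j : ℤ)) := by
      rw [← ZMod.intCast_zmod_eq_zero_iff_dvd]
      push_cast
      rw [hj, ZMod.natCast_zmod_val, ZMod.natCast_zmod_val]
      have h7 : ((w * u : (ZMod n)ˣ) : ZMod n) * (((w * u)⁻¹ : (ZMod n)ˣ) : ZMod n) = 1 :=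
        Units.mul_inv _
      rw [Units.val_mul, hwv] at h7
      linear_combination -h7
    obtain ⟨a, ha⟩ := hdv
    have h1 := symb_eq H (a := a) (b := (((u : ZMod n).val : ℕ) : ℤ)) (c := (j : ℤ)) (d := (n : ℤ))
      (by linear_combination -ha)
    rw [← h1]
    push_cast
    rfl
  rw [sum_unZ, sum_unZ, Finset.mul_sum]
  have e1 : ∀ u : (ZMod n)ˣ, 2 * ((χ (((u : ZMod n).val : ℕ) : ℤ) : R) *
      s ((((u : ZMod n).val : ℕ) : ℚ) / n)) = s (1 / 3) *
        ((2 * (χ (((u : ZMod n).val : ℕ) : ℤ) * Fp (((u : ZMod n).val : ℕ) : ℤ) n) +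
          χ (((u : ZMod n).val : ℕ) : ℤ) * sg' (((u : ZMod n).val : ℕ) : ℤ) n +
          χ (((u : ZMod n).val : ℕ) : ℤ) *
            sg' (((((w * u)⁻¹ : (ZMod n)ˣ) : ZMod n).val : ℕ) : ℤ) n : ℤ) : R) := by
    intro u
    have h1 := hval u
    unfold GG at h1
    push_cast at h1 ⊢
    linear_combination (χ (((u : ZMod n).val : ℕ) : ℤ) : R) * h1
  have e2 : ∑ u : (ZMod n)ˣ, χ (((u : ZMod n).val : ℕ) : ℤ) *
        sg' (((((w * u)⁻¹ : (ZMod n)ˣ) : ZMod n).val : ℕ) : ℤ) n =
      ∑ v : (ZMod n)ˣ, χ (((v : ZMod n).val : ℕ) : ℤ) * sg' (((v : ZMod n).val : ℕ) : ℤ) n := by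
    refine Finset.sum_bij' (fun u _ => (w * u)⁻¹) (fun v _ => w⁻¹ * v⁻¹) (fun _ _ => mem_univ _)
      (fun _ _ => mem_univ _) ?_ ?_ ?_
    · intro u _
      simp
    · intro v _
      simp
    · intro u _
      congr 1
      -- the character at the inverse
      set v : (ZMod n)ˣ := (w * u)⁻¹ with hv
      have h1 : χ (-(17 * ((((u : ZMod n).val : ℕ) : ℤ) * (((v : ZMod n).val : ℕ) : ℤ)))) =
          χ 1 := by
        refine X.per _ _ ?_
        rw [← ZMod.intCast_zmod_eq_zero_iff_dvd]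
        push_cast
        rw [ZMod.natCast_zmod_val, ZMod.natCast_zmod_val]
        have h7 : ((w * u : (ZMod n)ˣ) : ZMod n) * (v : ZMod n) = 1 := by
          rw [hv]; exact Units.mul_inv _
        rw [Units.val_mul, hwv] at h7
        linear_combination h7
      rw [X.odd, X.mul, X.mul, X.v17, X.one] at h1
      have h2 := X.pm _ (ZMod.val_coe_unit_coprime u)
      have h3 := X.pm _ (ZMod.val_coe_unit_coprime v)
      rcases h2 with h2 | h2 <;> rcases h3 with h3 | h3 <;> rw [h2, h3] at h1 ⊢ <;> omega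
  have e3 : ∑ v : (ZMod n)ˣ, χ (((v : ZMod n).val : ℕ) : ℤ) * sg' (((v : ZMod n).val : ℕ) : ℤ) n =
      2 * ∑ u ∈ (range n).filter (fun u => 2 * u < n), χ u := by
    rw [← sum_unZ (fun j => χ j * sg' j n), sum_sg hn X.toChr0]
  rw [Finset.sum_congr rfl fun u _ => e1 u, ← Finset.mul_sum, ← Int.cast_sum,
    Finset.sum_add_distrib, Finset.sum_add_distrib, e2, e3, ← Finset.mul_sum]
  congr 2
  ring

/-! ### the characters -/

theorem chr0O {n : ℕ} (h4 : n % 4 = 3) : Chr0 n (fun u => jacobiSym u n) where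
  mul a b := jacobiSym.mul_left a b n
  per a b h := by
    rw [jacobiSym.mod_left, jacobiSym.mod_left b]
    congr 1
    exact Int.emod_eq_emod_iff_emod_sub_eq_zero.2 (Int.emod_eq_zero_of_dvd h)
  odd a := by
    have : jacobiSym (-1) n = -1 := by
      rw [jacobiSym.at_neg_one (Nat.odd_iff.2 (by omega)), ZMod.χ₄_nat_three_mod_four h4]
    rw [show -a = -1 * a by ring, jacobiSym.mul_left, this]
    ring
  one := jacobiSym.one_left n
  zero u h := by
    have : NeZero n := ⟨by omega⟩
    rw [jacobiSym.eq_zero_iff_not_coprime, Int.gcd_natCast_natCast]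
    exact h
  pm u h := by
    refine jacobiSym.eq_one_or_neg_one ?_
    rw [Int.gcd_natCast_natCast]
    exact h

theorem chrO {n : ℕ} (h4 : n % 4 = 3) (h17 : jacobiSym n 17 = -1) :
    Chr n (fun u => jacobiSym u n) where
  toChr0 := chr0O h4
  v17 := by
    have h1 := jacobiSym.quadratic_reciprocity_one_mod_four (a := 17) (b := n) (by norm_num)
      (Nat.odd_iff.2 (by omega))
    push_cast at h1
    rw [h1, h17]

/-- **the character sum of the symbol is a square** -/
theorem sum_eq (hD : S_DIAG) (H : Symb17 s) {n : ℕ} (hn : Cm n) :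
    2 * ∑ u ∈ un n, (jacobiSym u n : R) * s ((u : ℚ) / n) = s (1 / 3) * (cc n : R) ^ 2 := by
  have hn0 : 0 < n := Nat.pos_of_ne_zero hn.1.ne_zero
  have h17 : ¬ 17 ∣ n := by
    intro h
    have h1 := hn.2.2
    have h2 : jacobiSym n 17 = 0 := by
      rw [jacobiSym.eq_zero_iff_not_coprime, Int.gcd_natCast_natCast]
      intro h3
      have h4 := Nat.dvd_gcd h (dvd_refl 17)
      rw [h3] at h4
      norm_num at h4
    rw [h2] at h1
    norm_num at h1
  have h1 := sum_symb H hn0 h17 (chrO hn.2.1 hn.2.2)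
  rw [hD n hn] at h1
  rw [h1]
  push_cast
  rfl

/-- the character sum does not vanish -/
theorem sum_ne (hD : S_DIAG) (hP : S_PAR) (H : Symb17 s) (h3 : s (1 / 3) ≠ 0) {n : ℕ} (hn : Cm n)
    (hS : Sc n) : ∑ u ∈ un n, (jacobiSym u n : R) * s ((u : ℚ) / n) ≠ 0 := by
  intro h0
  have h1 := sum_eq hD H hn
  rw [h0, mul_zero] at h1
  have h2 : (cc n : R) ^ 2 = 0 := by
    rcases mul_eq_zero.1 h1.symm with h | h
    · exact absurd h h3
    · exact h
  have h4 : cc n = 0 := by
    have := pow_eq_zero_iff (two_ne_zero) |>.1 h2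
    exact_mod_cast this
  obtain ⟨y, hy, hodd⟩ := hP n hn
  rw [h4] at hy
  have h5 : y = 0 := by
    rcases mul_eq_zero.1 hy.symm with h6 | h6
    · exact absurd h6 (by positivity)
    · exact h6
  have h7 := hodd.2 hS
  rw [h5] at h7
  exact absurd h7 (by decide)

end

end Pool.Agent.N975.S17
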