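import Pool.Agent.N975.S17.Ram
import Pool.Agent.N975.NV
import Pool.Agent.N974.Gen.S17

/-!
# The twists of level `17`: nonvanishing of the L-values

The odd symbol of an eigenform of level `17` is the counting function up to a nonzero constant
(no parametrisation by the elliptic curve is needed).
-/

set_option autoImplicit false

open Finset
open scoped MatrixGroups

namespace Pool.Agent.N975.S17

open Pool.Agent.N972.P17
open Pool.Agent.N969.P15 (un Ev chE)
open Pool.Agent.N974.Gen
open CongruenceSubgroup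

noncomputable section

variable {f : CuspForm (Gamma0 17 : Subgroup (GL (Fin 2) ℝ)) 2} {a : ℕ → ℤ}

/-- the imaginary parts of the integrals -/
theorem symb17_im (h : Eigen f a) : Symb17 (fun r => (II f r).im) where
  per x := by rw [II_add_one]
  neg x := by rw [II_conj f h.real, Complex.conj_im]
  aff := by
    intro A B C D hdet r h0
    have h1 := congrArg Complex.im (II_aff f (by norm_num) (a := A) (b := B) (c := C) (d := D)
      (by push_cast; linear_combination hdet) r (by push_cast; exact h0))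
    rw [Complex.sub_im, Complex.add_im, II_zero_im f h.real, sub_zero] at h1
    push_cast at h1
    exact h1

theorem affInf_im (h : Eigen f a) : AffInf (fun r => (II f r).im) := by
  intro A B C D hdet hC
  have h1 := congrArg Complex.im (II_aff_inf f (by norm_num) (a := A) (b := B) (c := C) (d := D)
      (by push_cast; linear_combination hdet) hC)
  rw [Complex.sub_im, II_zero_im f h.real, sub_zero] at h1
  push_cast at h1
  exact h1

/-- the values are multiples of one half of the value at `1 / 3` -/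
theorem exists_int {s : ℚ → ℝ} (H : Symb17 s) (H' : AffInf s) (r : ℚ) :
    ∃ k : ℤ, s r = s (1 / 3) / 2 * k := by
  have h1 : ∀ r : ℚ, ¬ 17 ∣ r.den → ∃ k : ℤ, s r = s (1 / 3) / 2 * k := by
    intro r hr
    have hcop : IsCoprime (17 * r.num) (r.den : ℤ) := by
      refine IsCoprime.mul_left ?_ ?_
      · exact_mod_cast ((Nat.Prime.coprime_iff_not_dvd (by norm_num)).2 hr).isCoprime
      · exact (Int.isCoprime_iff_gcd_eq_one.2 (by
          have := r.reduced
          rw [Int.gcd, Int.natAbs_natCast]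
          exact this))
    obtain ⟨u, v, huv⟩ := hcop
    have h2 := symb_eq H (a := v) (b := r.num) (c := -u) (d := (r.den : ℤ))
      (by linear_combination huv)
    refine ⟨GG r.num (-u) r.den, ?_⟩
    have h3 : ((r.num : ℤ) : ℚ) / (((r.den : ℕ) : ℤ) : ℚ) = r := by
      exact_mod_cast Rat.num_div_den r
    rw [h3] at h2
    linarith
  by_cases hr : 17 ∣ r.den
  · obtain ⟨c, hc⟩ := hr
    have hc0 : (c : ℤ) ≠ 0 := by
      intro h
      have : c = 0 := by exact_mod_cast h
      rw [this, mul_zero] at hc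
      exact r.den_ne_zero hc
    have hcop : IsCoprime r.num (r.den : ℤ) := Int.isCoprime_iff_gcd_eq_one.2 (by
      have := r.reduced
      rw [Int.gcd, Int.natAbs_natCast]
      exact this)
    obtain ⟨u, v, huv⟩ := hcop
    rw [hc] at huv
    push_cast at huv
    have hdet : r.num * u - (-v) * (17 * (c : ℤ)) = 1 := by linear_combination huv
    have h2 := H' hdet hc0
    have h3 : ((r.num : ℤ) : ℚ) / ((17 : ℚ) * (((c : ℕ) : ℤ) : ℚ)) = r := by
      have h4 := Rat.num_div_den r
      rw [hc] at h4
      push_cast at h4 ⊢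
      exact h4
    rw [h3] at h2
    rw [h2]
    have hu : (u : ℤ) ≠ 0 := d_ne (a := r.num) (b := -v) (c := (c : ℤ)) (by linear_combination hdet)
    refine ⟨GG (-v) c u, ?_⟩
    have h4 := symb_eq H (a := r.num) (b := -v) (c := (c : ℤ)) (d := u) (by linear_combination hdet)
    linarith
  · exact h1 r hr

/-- the constant is not zero -/
theorem im_ne (h : Eigen f a) : (II f (1 / 3)).im ≠ 0 := by
  intro h0
  have hf : f ≠ 0 := by
    rintro rfl
    have h1 := h.one
    have h2 : cf (0 : CuspForm (Gamma0 17 : Subgroup (GL (Fin 2) ℝ)) 2) 1 = 0 := by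
      unfold cf
      have h3 : ((0 : CuspForm (Gamma0 17 : Subgroup (GL (Fin 2) ℝ)) 2) : UpperHalfPlane → ℂ) = 0 :=
        rfl
      rw [h3, UpperHalfPlane.qExpansion_zero]
      simp
    exact absurd (h1.symm.trans h2) one_ne_zero
  obtain ⟨r, hr⟩ := NV.exists_im_ne f hf
  obtain ⟨k, hk⟩ := exists_int (symb17_im h) (affInf_im h) r
  apply hr
  have h1 : (II f r).im = (II f (1 / 3)).im / 2 * k := hk
  rw [h1, h0]
  ring

/-- the integral symbol of an eigenform of level `17` -/
theorem exists_symb (h : Eigen f a) : ∃ (s : ℚ → ℤ) (κ : ℝ), κ ≠ 0 ∧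
    (∀ r : ℚ, (II f r).im = κ * s r) ∧ SymbG 17 s a ∧ s (1 / 3) = 2 := by
  have h3 := im_ne h
  have hκ : (II f (1 / 3)).im / 2 ≠ 0 := div_ne_zero h3 two_ne_zero
  choose s hs using exists_int (symb17_im h) (affInf_im h)
  have hs' : ∀ r : ℚ, (II f r).im = (II f (1 / 3)).im / 2 * s r := hs
  refine ⟨s, _, hκ, hs', symbG_of_im h (by norm_num) hκ hs', ?_⟩
  have h4 := hs' (1 / 3)
  have h5 : (II f (1 / 3)).im / 2 * (2 - (s (1 / 3) : ℝ)) = 0 := by linarith
  have h6 := (mul_eq_zero.1 h5).resolve_left hκ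
  have h7 : (s (1 / 3) : ℝ) = 2 := by linarith
  exact_mod_cast h7

theorem symb17_of {s : ℚ → ℤ} (g : SymbG 17 s a) : Symb17 s where
  per := g.per
  neg := g.neg
  aff := by
    intro A B C D hdet r h0
    have h1 := g.aff (A := A) (B := B) (C := C) (D := D) (by push_cast; linear_combination hdet) r
      (by push_cast; exact h0)
    push_cast at h1
    exact h1

theorem affInf_of {s : ℚ → ℤ} (g : SymbG 17 s a) : AffInf s := by
  intro A B C D hdet hC
  have h1 := g.aff_inf (A := A) (B := B) (C := C) (D := D) (by push_cast; linear_combination hdet) hC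
  push_cast at h1
  exact h1

section sums

variable {s : ℚ → ℤ} (g : SymbG 17 s a) (h2 : s (1 / 3) = 2)
include g h2

theorem sumO (hD : S_DIAG) {n : ℕ} (hn : Cm n) :
    ∑ u ∈ un n, jacobiSym u n * s ((u : ℚ) / n) = cc n ^ 2 := by
  have h1 := sum_eq hD (symb17_of g) hn
  rw [h2] at h1
  simpa using h1

theorem sumE (hD : S_DIAGE) {n : ℕ} (hn : Cme n) :
    ∑ u ∈ un n, chE n u * s ((u : ℚ) / n) = cc n ^ 2 := by
  have hn0 : 0 < n := ChE.ev_pos hn.1
  have h17 : ¬ 17 ∣ n := by
    intro h
    have h1 := hn.2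
    have h2 : jacobiSym n 17 = 0 := by
      rw [jacobiSym.eq_zero_iff_not_coprime, Int.gcd_natCast_natCast]
      intro h3
      have h4 := Nat.dvd_gcd h (dvd_refl 17)
      rw [h3] at h4
      norm_num at h4
    rw [h2] at h1
    norm_num at h1
  have h1 := sum_symb (symb17_of g) hn0 h17 (chrE hn)
  rw [hD n hn, h2] at h1
  simpa using h1

theorem sumR (hD : S_DIAGR) {n : ℕ} (hn : Cr n) :
    ∑ u ∈ un n, jacobiSym u n * s ((u : ℚ) / n) = 2 * cc n ^ 2 := by
  have hn0 : 0 < n := Nat.pos_of_ne_zero hn.1.ne_zero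
  have h1 := sum_symbR (symb17_of g) (affInf_of g) hn0 hn.2.2 (chr0O hn.2.1)
  rw [hD n hn, h2] at h1
  simpa using h1

theorem sumRE (hD : S_DIAGRE) {n : ℕ} (hn : Cre n) :
    ∑ u ∈ un n, chE n u * s ((u : ℚ) / n) = 2 * cc n ^ 2 := by
  have hn0 : 0 < n := ChE.ev_pos hn.1
  have h1 := sum_symbR (symb17_of g) (affInf_of g) hn0 hn.2 (chr0E hn.1)
  rw [hD n hn, h2] at h1
  simpa using h1

end sums

end

end Pool.Agent.N975.S17
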