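import Pool.Agent.N975.S17.Fin
import Pool.Agent.Y687.K2.RankForm

/-!
# The twists of level `17`: the rank form of the Birch and Swinnerton-Dyer conjecture
-/

set_option autoImplicit false

open Finset
open scoped MatrixGroups

namespace Pool.Agent.N975.S17

open Pool.Agent.N972.P17
open Pool.Agent.N969.P15 (un Ev chE)
open Pool.Agent.N974.Gen
open Pool.Agent.Y687 (RankBSD rankBSD)
open Pool.Agent.W97.MT (ap)
open CongruenceSubgroup

noncomputable section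

variable {f : CuspForm (Gamma0 17 : Subgroup (GL (Fin 2) ℝ)) 2}

/-- the points of the twist by `D` are finitely many -/
def FinPts (D : ℤ) : Prop :=
  {q : ℚ × ℚ | q.2 ^ 2 = q.1 ^ 3 + ((-91 * D ^ 2 : ℤ) : ℚ) * q.1 + ((-330 * D ^ 3 : ℤ) : ℚ)}.Finite

theorem bsdN (h : Eigen f (fun p => ap E17 p)) {n : ℕ} (hsq : Squarefree n) (h4 : n % 4 = 3)
    (hsum : ∀ s : ℚ → ℤ, SymbG 17 s (fun p => ap E17 p) → s (1 / 3) = 2 →
      ∑ u ∈ un n, jacobiSym u n * s ((u : ℚ) / n) ≠ 0)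
    (hfin : FinPts (-(n : ℤ))) : RankBSD (-91 * (-(n : ℤ)) ^ 2) (-330 * (-(n : ℤ)) ^ 3) := by
  obtain ⟨s, κ, hκ, hs, hg, h3⟩ := exists_symb h
  have hab : (-(n : ℤ)).natAbs = n := by rw [Int.natAbs_neg, Int.natAbs_natCast]
  obtain ⟨F, hF, hFp, hF1⟩ := exists_f_neO h (-91) (-330) disc17 bad17 (fun _ => good17) (-(n : ℤ))
    (by
      intro x hx
      rw [dvd_neg] at hx
      exact Int.squarefree_natCast.2 hsq x hx)
    (by rw [hab]; omega) (by omega) hs hκ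
    (by
      rw [hab]
      exact hsum s hg h3)
  exact rankBSD hF hFp hF1 hfin

theorem bsdNE (h : Eigen f (fun p => ap E17 p)) {n : ℕ} (hE : Ev n)
    (hsum : ∀ s : ℚ → ℤ, SymbG 17 s (fun p => ap E17 p) → s (1 / 3) = 2 →
      ∑ u ∈ un n, chE n u * s ((u : ℚ) / n) ≠ 0)
    (hfin : FinPts (-((n / 4 : ℕ) : ℤ))) :
    RankBSD (-91 * (-((n / 4 : ℕ) : ℤ)) ^ 2) (-330 * (-((n / 4 : ℕ) : ℤ)) ^ 3) := by
  obtain ⟨s, κ, hκ, hs, hg, h3⟩ := exists_symb h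
  obtain ⟨F, hF, hFp, hF1⟩ := exists_f_neE h (-91) (-330) disc17 bad17 (fun _ => good17) hE hs hκ
    (hsum s hg h3)
  exact rankBSD hF hFp hF1 hfin

/-- odd discriminants, `17` inert -/
theorem bsdO (h : Eigen f (fun p => ap E17 p)) (hD : S_DIAG) (hP : S_PAR) {n : ℕ} (hn : Cm n)
    (hS : Sc n) (hfin : FinPts (-(n : ℤ))) :
    RankBSD (-91 * (-(n : ℤ)) ^ 2) (-330 * (-(n : ℤ)) ^ 3) := by
  refine bsdN h hn.1 hn.2.1 (fun s hg h3 => ?_) hfin
  rw [sumO hg h3 hD hn]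
  obtain ⟨y, hy, hodd⟩ := hP n hn
  rw [hy]
  have h7 : Odd y := hodd.2 hS
  have h8 : y ≠ 0 := by
    rintro rfl
    exact absurd h7 (by decide)
  positivity

/-- even discriminants, `17` inert -/
theorem bsdE (h : Eigen f (fun p => ap E17 p)) (hD : S_DIAGE) (hP : S_PARE) {n : ℕ} (hn : Cme n)
    (hS : Sx n) (hfin : FinPts (-((n / 4 : ℕ) : ℤ))) :
    RankBSD (-91 * (-((n / 4 : ℕ) : ℤ)) ^ 2) (-330 * (-((n / 4 : ℕ) : ℤ)) ^ 3) := by
  refine bsdNE h hn.1 (fun s hg h3 => ?_) hfin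
  rw [sumE hg h3 hD hn]
  obtain ⟨y, hy, hodd⟩ := hP n hn
  rw [hy]
  have h7 : Odd y := hodd.2 hS
  have h8 : y ≠ 0 := by
    rintro rfl
    exact absurd h7 (by decide)
  positivity

/-- odd discriminants, `17` ramified -/
theorem bsdR (h : Eigen f (fun p => ap E17 p)) (hD : S_DIAGR) (hP : S_PARR) {n : ℕ} (hn : Cr n)
    (hS : Sr n) (hfin : FinPts (-(n : ℤ))) :
    RankBSD (-91 * (-(n : ℤ)) ^ 2) (-330 * (-(n : ℤ)) ^ 3) := by
  refine bsdN h hn.1 hn.2.1 (fun s hg h3 => ?_) hfin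
  rw [sumR hg h3 hD hn]
  obtain ⟨y, hy, hodd⟩ := hP n hn
  rw [hy]
  have h7 : Odd y := hodd.2 hS
  have h8 : y ≠ 0 := by
    rintro rfl
    exact absurd h7 (by decide)
  positivity

/-- even discriminants, `17` ramified -/
theorem bsdRE (h : Eigen f (fun p => ap E17 p)) (hD : S_DIAGRE) (hP : S_PARRE) {n : ℕ}
    (hn : Cre n) (hS : Sr n) (hfin : FinPts (-((n / 4 : ℕ) : ℤ))) :
    RankBSD (-91 * (-((n / 4 : ℕ) : ℤ)) ^ 2) (-330 * (-((n / 4 : ℕ) : ℤ)) ^ 3) := by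
  refine bsdNE h hn.1 (fun s hg h3 => ?_) hfin
  rw [sumRE hg h3 hD hn]
  obtain ⟨y, hy, hodd⟩ := hP n hn
  rw [hy]
  have h7 : Odd y := hodd.2 hS
  have h8 : y ≠ 0 := by
    rintro rfl
    exact absurd h7 (by decide)
  positivity

end

end Pool.Agent.N975.S17
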