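import Pool.Agent.N975.S17.Sym

/-!
# The homomorphism on all matrices of `Γ₀(17)` and the uniqueness of odd parabolic homomorphisms
-/

set_option autoImplicit false

namespace Pool.Agent.N975.S17

open Pool.Agent.N972.P17
open Pool.Agent.N975.Sym (ev kq act act_inv eqv ev_act kq_eq dec2 ev10 ev_neg key bound)

noncomputable section

/-- the correction for all signs -/
def sg' (x M : ℤ) : ℤ := if 0 < M then sg x M else sg (-x) (-M)

/-- the symbol for all signs -/
def GG (b c d : ℤ) : ℤ := 2 * Fp b d + sg' b d + sg' c d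

theorem GG_pos {b c d : ℤ} (hd : 0 < d) : GG b c d = Gs b c d := by
  unfold GG Gs sg'
  rw [if_pos hd, if_pos hd]

theorem ev_neg_neg (q : ℤ × ℤ × ℤ) (x M : ℤ) : ev q (-x) (-M) = ev q x M := by
  unfold ev; ring

theorem Zi_neg1 (x M y N : ℤ) : Zi (-x) (-M) y N = Zi x M y N := by
  funext q
  unfold Zi
  rw [ev_neg_neg]

theorem Zi_neg2 (x M y N : ℤ) : Zi x M (-y) (-N) = Zi x M y N := by
  funext q
  unfold Zi
  rw [ev_neg_neg]

theorem Zo_neg1 (x M y N : ℤ) : Zo (-x) (-M) y N = Zo x M y N := by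
  funext q
  unfold Zo
  rw [ev_neg_neg]

theorem Zo_neg2 (x M y N : ℤ) : Zo x M (-y) (-N) = Zo x M y N := by
  funext q
  unfold Zo
  rw [ev_neg_neg]

theorem Zi_all {x M y N : ℤ} (hM : M ≠ 0) (hN : N ≠ 0) :
    (Function.support (Zi x M y N)).Finite ∧ ∑ᶠ q, Zi x M y N q = sg' y N - sg' x M := by
  rcases lt_or_gt_of_ne hM with h1 | h1 <;> rcases lt_or_gt_of_ne hN with h2 | h2
  · have h1' : 0 < -M := by omega
    have h2' : 0 < -N := by omega
    rw [← Zi_neg1, ← Zi_neg2]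
    refine ⟨Zi_fin h1' h2', ?_⟩
    rw [Zi_sum h1' h2']
    unfold sg'
    rw [if_neg (by omega), if_neg (by omega)]
  · have h1' : 0 < -M := by omega
    rw [← Zi_neg1]
    refine ⟨Zi_fin h1' h2, ?_⟩
    rw [Zi_sum h1' h2]
    unfold sg'
    rw [if_pos h2, if_neg (by omega)]
  · have h2' : 0 < -N := by omega
    rw [← Zi_neg2]
    refine ⟨Zi_fin h1 h2', ?_⟩
    rw [Zi_sum h1 h2']
    unfold sg'
    rw [if_pos h1, if_neg (by omega)]
  · refine ⟨Zi_fin h1 h2, ?_⟩
    rw [Zi_sum h1 h2]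
    unfold sg'
    rw [if_pos h1, if_pos h2]

theorem Zo_all {c d c' d' : ℤ} (hd : d ≠ 0) (hd' : d' ≠ 0) :
    (Function.support (Zo d (-(17 * c)) d' (-(17 * c')))).Finite ∧
      ∑ᶠ q, Zo d (-(17 * c)) d' (-(17 * c')) q = sg' c d - sg' c' d' := by
  have e1 : ∀ c : ℤ, -(-(17 * c)) = -(17 * (-c)) := fun c => by ring
  rcases lt_or_gt_of_ne hd with h1 | h1 <;> rcases lt_or_gt_of_ne hd' with h2 | h2
  · have h1' : 0 < -d := by omega
    have h2' : 0 < -d' := by omega
    rw [← Zo_neg1, ← Zo_neg2, e1, e1]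
    refine ⟨Zo_fin h1' h2', ?_⟩
    rw [Zo_sum h1' h2']
    unfold sg'
    rw [if_neg (by omega), if_neg (by omega)]
  · have h1' : 0 < -d := by omega
    rw [← Zo_neg1, e1]
    refine ⟨Zo_fin h1' h2, ?_⟩
    rw [Zo_sum h1' h2]
    unfold sg'
    rw [if_pos h2, if_neg (by omega)]
  · have h2' : 0 < -d' := by omega
    rw [← Zo_neg2, e1]
    refine ⟨Zo_fin h1 h2', ?_⟩
    rw [Zo_sum h1 h2']
    unfold sg'
    rw [if_pos h1, if_neg (by omega)]
  · refine ⟨Zo_fin h1 h2, ?_⟩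
    rw [Zo_sum h1 h2]
    unfold sg'
    rw [if_pos h1, if_pos h2]

theorem sg'_zero (M : ℤ) : sg' 0 M = 0 := by
  unfold sg'
  rw [neg_zero, sg_zero, sg_zero, ite_self]

theorem d_ne {a b c d : ℤ} (h : a * d - 17 * (b * c) = 1) : d ≠ 0 := by
  rintro rfl
  rw [mul_zero] at h
  omega

/-- the homomorphism property -/
theorem GG_hom {a b c d a' b' c' d' : ℤ} (h : a * d - 17 * (b * c) = 1)
    (h' : a' * d' - 17 * (b' * c') = 1) :
    GG (a * b' + b * d') (c * a' + d * c') (17 * c * b' + d * d') = GG b c d + GG b' c' d' := by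
  have g : a * d - b * (17 * c) = 1 := by linear_combination h
  have g' : a' * d' - b' * (17 * c') = 1 := by linear_combination h'
  have g'' : (a * a' + b * (17 * c')) * (17 * c * b' + d * d') -
      (a * b' + b * d') * (17 * (c * a' + d * c')) = 1 := by
    linear_combination g' + (a' * d' - b' * (17 * c')) * g
  have hd := d_ne h
  have hd' := d_ne h'
  have hD : 17 * c * b' + d * d' ≠ 0 :=
    d_ne (a := a * a' + b * (17 * c')) (b := a * b' + b * d') (c := c * a' + d * c')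
      (by linear_combination g'')
  have fU1 := U_fin (x := b) hd
  have fU2 := fin_eqv (U_fin (x := b') hd') (eqv a b (17 * c) d g)
  obtain ⟨fZ1, s1⟩ := Zi_all (x := a * b' + b * d') (y := b) hD hd
  obtain ⟨fZ2', s2⟩ := Zo_all (c := c * a' + d * c') (c' := c') hD hd'
  have fZ2 := fin_eqv fZ2'
    (eqv (a * a' + b * (17 * c')) (a * b' + b * d') (17 * (c * a' + d * c'))
      (17 * c * b' + d * d') g'')
  obtain ⟨fZ3', s3⟩ := Zo_all (c := c) (c' := 0) hd one_ne_zero
  rw [mul_zero, neg_zero] at fZ3' s3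
  have fZ3 := fin_eqv fZ3' (eqv a b (17 * c) d g)
  obtain ⟨fZ4', s4⟩ := Zi_all (x := b') (y := 0) hd' one_ne_zero
  have fZ4 := fin_eqv fZ4' (eqv a b (17 * c) d g)
  have hU := six (U_id g g' g'') fU1 fU2 fZ1 fZ2 fZ3 fZ4
  rw [sum_eqv, sum_eqv, sum_eqv, sum_eqv, U_sum hd, U_sum hd', U_sum hD,
    s1, s2, s3, s4, sg'_zero] at hU
  unfold GG
  linarith

theorem Fp_neg_neg (x M : ℤ) : Fp (-x) (-M) = Fp x M := by
  classical
  unfold Fp
  apply finsum_congr
  intro q
  have h : q.1 * (-x) ^ 2 + q.2.1 * (-x) * (-M) + q.2.2 * (-M) ^ 2 =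
      q.1 * x ^ 2 + q.2.1 * x * M + q.2.2 * M ^ 2 := by ring
  rw [h]

/-- the reflection -/
def refl : (ℤ × ℤ × ℤ) ≃ (ℤ × ℤ × ℤ) where
  toFun q := (q.1, -q.2.1, q.2.2)
  invFun q := (q.1, -q.2.1, q.2.2)
  left_inv q := by simp
  right_inv q := by simp

theorem Fp_neg (x M : ℤ) : Fp (-x) M = -Fp x M := by
  classical
  unfold Fp
  rw [← finsum_neg_distrib, ← finsum_comp_equiv refl]
  apply finsum_congr
  rintro ⟨A, B, C⟩
  have hr : refl (A, B, C) = (A, -B, C) := rfl
  rw [hr]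
  have h1 : Fm (A, -B, C) ↔ Fm (A, B, C) := by
    unfold Fm
    simp only
    constructor
    · rintro ⟨h1, h2, h3⟩
      exact ⟨by linear_combination h1, h2, by omega⟩
    · rintro ⟨h1, h2, h3⟩
      exact ⟨by linear_combination h1, h2, by omega⟩
  have h2 : A * (-x) ^ 2 + -B * (-x) * M + C * M ^ 2 = A * x ^ 2 + B * x * M + C * M ^ 2 := by ring
  have h3 : Fm (A, B, C) → cQ (A, -B, C) = -cQ (A, B, C) := by
    intro hF
    have h4 := hF.2.2
    simp only at h4
    unfold cQ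
    simp only
    rcases h4 with h4 | h4
    · have e1 : ¬ (-B) % 34 = 2 := by omega
      rw [if_neg e1, if_pos h4]
      ring
    · have e1 : (-B) % 34 = 2 := by omega
      have e2 : ¬ B % 34 = 2 := by omega
      rw [if_pos e1, if_neg e2]
      ring
  simp only [h1, h2]
  by_cases hs : Fm (A, B, C) ∧ 0 < A ∧ A * x ^ 2 + B * x * M + C * M ^ 2 < 0
  · rw [if_pos hs, if_pos hs, h3 hs.1]
  · rw [if_neg hs, if_neg hs, neg_zero]

theorem sg'_neg_neg {x M : ℤ} (hM : M ≠ 0) : sg' (-x) (-M) = sg' x M := by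
  unfold sg'
  rcases lt_or_gt_of_ne hM with h | h
  · rw [if_pos (by omega), if_neg (by omega)]
  · rw [if_neg (by omega), if_pos (by omega), neg_neg, neg_neg]

theorem sg'_neg {x M : ℤ} (hM : M ≠ 0) : sg' (-x) M = -sg' x M := by
  unfold sg'
  rcases lt_or_gt_of_ne hM with h | h
  · rw [if_neg (by omega), if_neg (by omega), sg_neg (by omega : 0 < -M)]
  · rw [if_pos h, if_pos h, sg_neg h]

theorem GG_neg_neg {b c d : ℤ} (hd : d ≠ 0) : GG (-b) (-c) (-d) = GG b c d := by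
  unfold GG
  rw [Fp_neg_neg, sg'_neg_neg hd, sg'_neg_neg hd]

theorem GG_neg {b c d : ℤ} (hd : d ≠ 0) : GG (-b) (-c) d = -GG b c d := by
  unfold GG
  rw [Fp_neg, sg'_neg hd, sg'_neg hd]
  ring

theorem bound' {x M : ℤ} (hM : 0 < M) {A B C : ℤ} (h : Fm (A, B, C) ∧ 0 < A ∧
    A * x ^ 2 + B * x * M + C * M ^ 2 < 0) :
    A ≤ M ^ 2 ∧ -(2 * M) < 2 * A * x + B * M ∧ 2 * A * x + B * M < 2 * M := by
  obtain ⟨h1, h2, h3⟩ := h
  have h4 : A * ev (A, B, C) x M < 0 := mul_neg_of_pos_of_neg h2 h3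
  obtain ⟨h5, h6⟩ := bound (q := (A, B, C)) h1.1 h4
  simp only at h5 h6
  rw [abs_of_pos h2] at h5
  rw [abs_of_pos hM, abs_lt] at h6
  exact ⟨by linarith, h6.1, h6.2⟩

theorem Fp_small {x M : ℤ} (hM : 0 < M) (hM' : M ≤ 4) : Fp x M = 0 := by
  classical
  unfold Fp
  apply finsum_eq_zero_of_forall_eq_zero
  rintro ⟨A, B, C⟩
  rw [if_neg]
  intro h
  obtain ⟨h1, h2, h3⟩ := bound' hM h
  obtain ⟨⟨h4, ⟨k, h5⟩, h6⟩, h7, h8⟩ := h
  simp only at h4 h5 h6
  have : M ^ 2 ≤ 16 := by nlinarith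
  omega

theorem GG_T : GG 1 0 1 = 0 := by
  unfold GG
  rw [Fp_small one_pos (by norm_num)]
  rfl

theorem GG_V : GG 0 1 1 = 0 := by
  unfold GG
  rw [Fp_small one_pos (by norm_num)]
  rfl

theorem GG_3 : GG 1 1 3 = 2 := by
  unfold GG
  rw [Fp_small (by norm_num) (by norm_num)]
  rfl

/-! ### uniqueness -/

/-- an odd homomorphism on `Γ₀(17)` -/
structure OddHom {R : Type*} [AddCommGroup R] (φ : ℤ → ℤ → ℤ → ℤ → R) : Prop where
  hom : ∀ {a b c d a' b' c' d' : ℤ}, a * d - 17 * (b * c) = 1 → a' * d' - 17 * (b' * c') = 1 →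
    φ (a * a' + b * (17 * c')) (a * b' + b * d') (c * a' + d * c') (17 * c * b' + d * d') =
      φ a b c d + φ a' b' c' d'
  neg : ∀ {a b c d : ℤ}, a * d - 17 * (b * c) = 1 → φ (-a) (-b) (-c) (-d) = φ a b c d
  odd : ∀ {a b c d : ℤ}, a * d - 17 * (b * c) = 1 → φ a (-b) (-c) d = -φ a b c d
  hT : φ 1 1 0 1 = 0
  hV : φ 1 0 1 1 = 0
  h3 : φ 6 1 1 3 = 0

namespace OddHom

variable {R : Type*} [AddCommGroup R] [NoZeroSMulDivisors ℤ R] {φ : ℤ → ℤ → ℤ → ℤ → R}

theorem one (H : OddHom φ) : φ 1 0 0 1 = 0 := by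
  have h := H.hom (a := 1) (b := 0) (c := 0) (d := 1) (a' := 1) (b' := 0) (c' := 0) (d' := 1)
    (by norm_num) (by norm_num)
  norm_num at h
  exact h

theorem hTk (H : OddHom φ) (k : ℤ) : φ 1 k 0 1 = 0 := by
  induction k using Int.induction_on with
  | zero => exact H.one
  | succ n ih =>
    have h := H.hom (a := 1) (b := n) (c := 0) (d := 1) (a' := 1) (b' := 1) (c' := 0) (d' := 1)
      (by norm_num) (by norm_num)
    rw [ih, H.hT, add_zero] at h
    ring_nf at h ⊢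
    exact h
  | pred n ih =>
    have h := H.hom (a := 1) (b := -(n : ℤ) - 1) (c := 0) (d := 1) (a' := 1) (b' := 1) (c' := 0)
      (d' := 1) (by norm_num) (by norm_num)
    rw [H.hT, add_zero] at h
    rw [← h, ← ih]
    ring_nf

theorem hVk (H : OddHom φ) (k : ℤ) : φ 1 0 k 1 = 0 := by
  induction k using Int.induction_on with
  | zero => exact H.one
  | succ n ih =>
    have h := H.hom (a := 1) (b := 0) (c := n) (d := 1) (a' := 1) (b' := 0) (c' := 1) (d' := 1)
      (by norm_num) (by norm_num)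
    rw [ih, H.hV, add_zero] at h
    ring_nf at h ⊢
    exact h
  | pred n ih =>
    have h := H.hom (a := 1) (b := 0) (c := -(n : ℤ) - 1) (d := 1) (a' := 1) (b' := 0) (c' := 1)
      (d' := 1) (by norm_num) (by norm_num)
    rw [H.hV, add_zero] at h
    rw [← h, ← ih]
    ring_nf

theorem inv (H : OddHom φ) {a b c d : ℤ} (h : a * d - 17 * (b * c) = 1) :
    φ d (-b) (-c) a = -φ a b c d := by
  have h1 := H.hom (a := a) (b := b) (c := c) (d := d) (a' := d) (b' := -b) (c' := -c) (d' := a)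
    h (by linear_combination h)
  have e1 : a * d + b * (17 * -c) = 1 := by linear_combination h
  have e2 : a * -b + b * a = 0 := by ring
  have e3 : c * d + d * -c = 0 := by ring
  have e4 : 17 * c * -b + d * a = 1 := by linear_combination h
  rw [e1, e2, e3, e4, H.one] at h1
  rw [eq_neg_iff_add_eq_zero, add_comm]
  exact h1.symm

/-- the transpose-type symmetry -/
theorem tr (H : OddHom φ) {a b c d : ℤ} (h : a * d - 17 * (b * c) = 1) :
    φ d b c a = φ a b c d := by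
  have h' : d * a - 17 * (b * c) = 1 := by linear_combination h
  have h1 := H.odd h'
  rw [H.inv h] at h1
  exact (neg_injective h1).symm

theorem ref (H : OddHom φ) {a b c d : ℤ} (h : a * d - 17 * (b * c) = 1) :
    φ (-a) b c (-d) = -φ a b c d := by
  have h' : (-a) * (-d) - 17 * (b * c) = 1 := by linear_combination h
  have h1 := H.neg h'
  rw [neg_neg, neg_neg] at h1
  rw [← h1, H.odd h]

/-- invariance under translations -/
theorem trans (H : OddHom φ) {a b c d : ℤ} (h : a * d - 17 * (b * c) = 1) (j k : ℤ) :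
    φ (a + 17 * c * j) (b + j * d + k * (a + 17 * c * j)) c (d + 17 * c * k) = φ a b c d := by
  have h1 := H.hom (a := 1) (b := j) (c := 0) (d := 1) (a' := a) (b' := b) (c' := c) (d' := d)
    (by norm_num) h
  have h2 : (1 * a + j * (17 * c)) * (17 * 0 * b + 1 * d) - 17 * ((1 * b + j * d) *
      (0 * a + 1 * c)) = 1 := by linear_combination h
  have h3 := H.hom (a := 1 * a + j * (17 * c)) (b := 1 * b + j * d) (c := 0 * a + 1 * c)
    (d := 17 * 0 * b + 1 * d) (a' := 1) (b' := k) (c' := 0) (d' := 1) h2 (by norm_num)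
  rw [h1, H.hTk, H.hTk, zero_add, add_zero] at h3
  rw [← h3]
  congr 1 <;> ring

/-- the value at `(A, B; 17, D)` only depends on `D` modulo `17` -/
theorem modD (H : OddHom φ) {A B D A' B' D' : ℤ} (h : A * D - 17 * (B * 1) = 1)
    (h' : A' * D' - 17 * (B' * 1) = 1) (hD : (17 : ℤ) ∣ D' - D) : φ A' B' 1 D' = φ A B 1 D := by
  obtain ⟨k, hk⟩ := hD
  have hA : (17 : ℤ) ∣ A' - A := by
    have h1 : A' - A = 17 * (A * B' - A' * B - k * A * A') := by
      linear_combination -A' * h + A * h' - A * A' * hk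
    exact ⟨_, h1⟩
  obtain ⟨j, hj⟩ := hA
  have h1 := H.trans h j k
  rw [← h1]
  have e1 : A' = A + 17 * 1 * j := by linear_combination hj
  have e2 : D' = D + 17 * 1 * k := by linear_combination hk
  have e3 : B' = B + j * D + k * (A + 17 * 1 * j) := by
    rw [e1, e2] at h'
    have : 17 * B' = 17 * (B + j * D + k * (A + 17 * 1 * j)) := by
      linear_combination h - h'
    omega
  rw [← e3, ← e1, ← e2]

theorem step (H : OddHom φ) {A B D A' B' : ℤ} (h : A * D - 17 * (B * 1) = 1)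
    (h' : A' * (D + 1) - 17 * (B' * 1) = 1) :
    φ (A * (D + 1) - 17 * B) (B * A' - A * B') 1 (D * A' - 17 * B') =
      φ A B 1 D - φ A' B' 1 (D + 1) := by
  have h1 := H.inv h'
  have h2 := H.hom (a := A) (b := B) (c := 1) (d := D) (a' := D + 1) (b' := -B') (c' := -1)
    (d' := A') h (by linear_combination h')
  rw [h1, ← sub_eq_add_neg] at h2
  rw [← h2]
  congr 1 <;> ring

theorem two_zero {x : R} (h : x = -x) : x = 0 := by
  have h1 : (2 : ℤ) • x = 0 := by
    rw [two_smul]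
    nth_rewrite 1 [h]
    exact neg_add_cancel x
  rcases smul_eq_zero.1 h1 with h2 | h2
  · norm_num at h2
  · exact h2

theorem g9 (H : OddHom φ) : φ 2 1 1 9 = φ 9 1 1 2 := H.tr (by norm_num)

theorem g8 (H : OddHom φ) : φ 15 7 1 8 = -φ 2 1 1 9 := by
  rw [← H.ref (by norm_num : (2 : ℤ) * 9 - 17 * (1 * 1) = 1)]
  exact H.modD (by norm_num) (by norm_num) (by norm_num)

theorem g2 (H : OddHom φ) : φ 9 1 1 2 = 0 := by
  have h1 := H.step (A := 1) (B := 0) (D := 1) (A' := 9) (B' := 1) (by norm_num) (by norm_num)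
  norm_num at h1
  rw [H.hV, zero_sub] at h1
  have h2 := H.modD (A := 15) (B := 7) (D := 8) (A' := -15) (B' := 7) (D' := -8)
  have h3 := H.ref (by norm_num : (15 : ℤ) * 8 - 17 * (7 * 1) = 1)
  have h4 : φ 2 (-1) 1 (-8) = φ (-15) 7 1 (-8) := H.modD (by norm_num) (by norm_num) (by norm_num)
  rw [h4, h3, H.g8, H.g9, neg_neg] at h1
  exact two_zero h1

theorem g4 (H : OddHom φ) : φ 13 3 1 4 = 0 := by
  have h1 : φ 4 3 1 13 = φ 13 3 1 4 := H.tr (by norm_num)
  have h3 := H.ref (by norm_num : (13 : ℤ) * 4 - 17 * (3 * 1) = 1)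
  have h4 : φ 4 3 1 13 = φ (-13) 3 1 (-4) := H.modD (by norm_num) (by norm_num) (by norm_num)
  rw [h4, h3] at h1
  exact two_zero h1.symm

theorem g5 (H : OddHom φ) : φ 7 2 1 5 = 0 := by
  have h1 := H.step (A := 9) (B := 1) (D := 2) (A' := 6) (B' := 1) (by norm_num) (by norm_num)
  norm_num at h1
  rw [H.g2, H.h3, sub_zero] at h1
  have h3 := H.ref (by norm_num : (7 : ℤ) * 5 - 17 * (2 * 1) = 1)
  have h4 : φ 10 (-3) 1 (-5) = φ (-7) 2 1 (-5) := H.modD (by norm_num) (by norm_num) (by norm_num)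
  rw [h4, h3] at h1
  exact neg_eq_zero.1 h1

theorem g6 (H : OddHom φ) : φ 3 1 1 6 = 0 := by
  rw [H.tr (by norm_num : (6 : ℤ) * 3 - 17 * (1 * 1) = 1)]
  exact H.h3

theorem g7 (H : OddHom φ) : φ 5 2 1 7 = 0 := by
  rw [H.tr (by norm_num : (7 : ℤ) * 5 - 17 * (2 * 1) = 1)]
  exact H.g5

theorem g8' (H : OddHom φ) : φ 15 7 1 8 = 0 := by
  rw [H.g8, H.g9, H.g2, neg_zero]

/-- the values at the generators -/
theorem gen (H : OddHom φ) {A B D : ℤ} (h : A * D - 17 * (B * 1) = 1) : φ A B 1 D = 0 := by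
  have key : ∀ {A0 B0 D0 : ℤ}, A0 * D0 - 17 * (B0 * 1) = 1 → φ A0 B0 1 D0 = 0 →
      ((17 : ℤ) ∣ D - D0 ∨ (17 : ℤ) ∣ D + D0) → φ A B 1 D = 0 := by
    intro A0 B0 D0 h0 h1 h2
    rcases h2 with h2 | h2
    · rw [H.modD h0 h h2, h1]
    · have h3 := H.ref h0
      have h4 : (-A0) * (-D0) - 17 * (B0 * 1) = 1 := by linear_combination h0
      rw [H.modD h4 h (by rwa [sub_neg_eq_add]), h3, h1, neg_zero]
  have hD : ¬ (17 : ℤ) ∣ D := by
    rintro ⟨k, rfl⟩
    have h1 : (17 : ℤ) ∣ 1 := ⟨A * k - B, by linear_combination -h⟩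
    norm_num at h1
  have hc : ((17 : ℤ) ∣ D - 1 ∨ (17 : ℤ) ∣ D + 1) ∨ ((17 : ℤ) ∣ D - 2 ∨ (17 : ℤ) ∣ D + 2) ∨
      ((17 : ℤ) ∣ D - 3 ∨ (17 : ℤ) ∣ D + 3) ∨ ((17 : ℤ) ∣ D - 4 ∨ (17 : ℤ) ∣ D + 4) ∨
      ((17 : ℤ) ∣ D - 5 ∨ (17 : ℤ) ∣ D + 5) ∨ ((17 : ℤ) ∣ D - 6 ∨ (17 : ℤ) ∣ D + 6) ∨
      ((17 : ℤ) ∣ D - 7 ∨ (17 : ℤ) ∣ D + 7) ∨ ((17 : ℤ) ∣ D - 8 ∨ (17 : ℤ) ∣ D + 8) := by
    omega
  rcases hc with hc | hc | hc | hc | hc | hc | hc | hc
  · exact key (A0 := 1) (B0 := 0) (by norm_num) H.hV hc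
  · exact key (A0 := 9) (B0 := 1) (by norm_num) H.g2 hc
  · exact key (A0 := 6) (B0 := 1) (by norm_num) H.h3 hc
  · exact key (A0 := 13) (B0 := 3) (by norm_num) H.g4 hc
  · exact key (A0 := 7) (B0 := 2) (by norm_num) H.g5 hc
  · exact key (A0 := 3) (B0 := 1) (by norm_num) H.g6 hc
  · exact key (A0 := 5) (B0 := 2) (by norm_num) H.g7 hc
  · exact key (A0 := 15) (B0 := 7) (by norm_num) H.g8' hc

theorem base (H : OddHom φ) {a b c : ℤ} (h : a * 1 - 17 * (b * c) = 1) : φ a b c 1 = 0 := by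
  have h1 := H.hom (a := 1) (b := b) (c := 0) (d := 1) (a' := 1) (b' := 0) (c' := c) (d' := 1)
    (by norm_num) (by norm_num)
  rw [H.hTk, H.hVk, add_zero] at h1
  rw [← h1]
  congr 1
  · linear_combination h
  · ring
  · ring

/-- an odd homomorphism vanishing at the translations and at `(6, 1; 17, 3)` vanishes -/
theorem zero (H : OddHom φ) (n : ℕ) : ∀ a b c d : ℤ, a * d - 17 * (b * c) = 1 → d.natAbs = n →
    φ a b c d = 0 := by
  induction n using Nat.strong_induction_on with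
  | _ n ih =>
    intro a b c d h hn
    have hd := d_ne h
    by_cases h1 : d = 1
    · subst h1
      exact H.base h
    by_cases h2 : d = -1
    · subst h2
      rw [← H.neg h]
      exact H.base (by linear_combination h)
    -- the reduction
    have hnd : ¬ d ∣ 17 * b := by
      rintro ⟨k, hk⟩
      have h3 : d ∣ 1 := ⟨a - k * c, by linear_combination -h - c * hk⟩
      rcases Int.isUnit_iff.1 (isUnit_of_dvd_one h3) with h4 | h4
      · exact h1 h4
      · exact h2 h4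
    have hr0 := Int.emod_nonneg (17 * b) hd
    have hr1 := Int.emod_lt_abs (17 * b) hd
    have hr2 : 17 * b % d ≠ 0 := fun h3 => hnd (Int.dvd_of_emod_eq_zero h3)
    have hr3 := Int.emod_add_mul_ediv (17 * b) d
    have step1 : ∀ D : ℤ, ¬ (17 : ℤ) ∣ D → |17 * b + D * d| < |d| → φ a b c d = 0 := by
      intro D hD hlt
      obtain ⟨A, B, hAB⟩ : ∃ A B : ℤ, A * D - 17 * (B * 1) = 1 := by
        have h3 : IsCoprime D 17 := by
          rw [isCoprime_comm]
          exact (Int.prime_iff_natAbs_prime.2 (by norm_num)).coprime_iff_not_dvd.2 hD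
        obtain ⟨u, v, huv⟩ := h3
        exact ⟨u, -v, by linear_combination huv⟩
      have h3 := H.hom (a := A) (b := B) (c := 1) (d := D) (a' := a) (b' := b) (c' := c) (d' := d)
        hAB h
      rw [H.gen hAB, zero_add] at h3
      rw [← h3]
      refine ih _ ?_ _ _ _ _ ?_ rfl
      · rw [← hn]
        zify
        have e : 17 * 1 * b + D * d = 17 * b + D * d := by ring
        rw [e]
        exact hlt
      · linear_combination h + (a * d - 17 * (b * c)) * hAB
    by_cases h3 : (17 : ℤ) ∣ (17 * b / d)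
    · rcases lt_or_gt_of_ne hd with h4 | h4
      · refine step1 (-(17 * b / d) + 1) (by omega) ?_
        have e : 17 * b + (-(17 * b / d) + 1) * d = 17 * b % d + d := by linear_combination -hr3
        rw [e, abs_of_neg h4, abs_lt]
        rw [abs_of_neg h4] at hr1
        constructor <;> omega
      · refine step1 (-(17 * b / d) - 1) (by omega) ?_
        have e : 17 * b + (-(17 * b / d) - 1) * d = 17 * b % d - d := by linear_combination -hr3
        rw [e, abs_of_pos h4, abs_lt]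
        rw [abs_of_pos h4] at hr1
        constructor <;> omega
    · refine step1 (-(17 * b / d)) (by omega) ?_
      have e : 17 * b + (-(17 * b / d)) * d = 17 * b % d := by linear_combination -hr3
      rw [e, abs_of_nonneg hr0]
      exact hr1

end OddHom

end

end Pool.Agent.N975.S17
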