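import Pool.Agent.N975.S17.Core

/-!
# The regularized sums at the cusps
-/

set_option autoImplicit false

namespace Pool.Agent.N975.S17

open Pool.Agent.N972.P17
open Pool.Agent.N975.Sym (ev kq act act_inv eqv ev_act kq_eq dec2 ev10 ev_neg)

noncomputable section

/-- the weight -/
def w (C : ℤ) : ℤ := if (2 : ℤ) ∣ C then -1 else 1

/-- the terms of the alternating sum -/
def e (x M C : ℤ) : ℤ := w C * Int.sign (2 * x + C * M)

theorem e_fin {x M y N : ℤ} (hM : 0 < M) (hN : 0 < N) :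
    (Function.support fun C => e x M C - e y N C).Finite := by
  refine (Set.finite_Icc (-(2 * |x| + 2 * |y|)) (2 * |x| + 2 * |y|)).subset ?_
  intro C hC
  rw [Set.mem_Icc]
  by_contra h
  apply hC
  have hx := abs_nonneg x
  have hy := abs_nonneg y
  have hx1 := le_abs_self x
  have hx2 := neg_abs_le x
  have hy1 := le_abs_self y
  have hy2 := neg_abs_le y
  show w C * Int.sign (2 * x + C * M) - w C * Int.sign (2 * y + C * N) = 0
  rcases lt_or_ge C (-(2 * |x| + 2 * |y|)) with h1 | h1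
  · rw [Int.sign_eq_neg_one_of_neg, Int.sign_eq_neg_one_of_neg, sub_self]
    · nlinarith
    · nlinarith
  · have h2 : 2 * |x| + 2 * |y| < C := by
      by_contra h3
      exact h ⟨h1, not_lt.1 h3⟩
    rw [Int.sign_eq_one_of_pos, Int.sign_eq_one_of_pos, sub_self]
    · nlinarith
    · nlinarith

theorem w_add_two (C : ℤ) : w (C + 2) = w C := by
  unfold w
  have : (2 : ℤ) ∣ C + 2 ↔ (2 : ℤ) ∣ C := by omega
  simp only [this]

/-- the sum of the differences with the origin -/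
def E (x M : ℤ) : ℤ := ∑ᶠ C, (e x M C - e 0 1 C)

theorem E_diff {x M y N : ℤ} (hM : 0 < M) (hN : 0 < N) :
    ∑ᶠ C, (e x M C - e y N C) = E x M - E y N := by
  unfold E
  rw [← finsum_sub_distrib (e_fin hM one_pos) (e_fin hN one_pos)]
  apply finsum_congr
  intro C
  ring

theorem e_shift (x M C : ℤ) : e (x + M) M C = e x M (C + 2) := by
  unfold e
  rw [w_add_two]
  congr 2
  ring

theorem E_shift0 : ∑ᶠ C, (e 0 1 (C + 2) - e 0 1 C) = 0 := by
  have hs : Function.support (fun C : ℤ => e 0 1 (C + 2) - e 0 1 C) ⊆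
      (({-2, -1, 0} : Finset ℤ) : Set ℤ) := by
    intro C hC
    have h1 : e 0 1 (C + 2) - e 0 1 C ≠ 0 := hC
    by_contra h
    apply h1
    unfold e
    rw [w_add_two]
    simp only [Finset.coe_insert, Finset.coe_singleton, Set.mem_insert_iff,
      Set.mem_singleton_iff, not_or] at h
    rcases lt_or_ge C (-2) with h2 | h2
    · rw [Int.sign_eq_neg_one_of_neg, Int.sign_eq_neg_one_of_neg, sub_self] <;> omega
    · rw [Int.sign_eq_one_of_pos, Int.sign_eq_one_of_pos, sub_self] <;> omega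
  rw [finsum_eq_sum_of_support_subset _ hs]
  rfl

theorem E_add {x M : ℤ} (hM : 0 < M) : E (x + M) M = E x M := by
  have h1 : E (x + M) M = ∑ᶠ C, (e x M (C + 2) - e 0 1 C) := by
    unfold E
    exact finsum_congr fun C => by rw [e_shift]
  have h2 : ∑ᶠ C, (e x M (C + 2) - e 0 1 (C + 2)) = E x M :=
    finsum_comp_equiv (Equiv.addRight (2 : ℤ)) (f := fun C => e x M C - e 0 1 C)
  have hf : (Function.support fun C : ℤ => e x M (C + 2) - e 0 1 (C + 2)).Finite := by
    have := (e_fin (x := x) (y := 0) hM one_pos).preimage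
      ((Equiv.addRight (2 : ℤ)).injective.injOn)
    exact this
  have hg : (Function.support fun C : ℤ => e 0 1 (C + 2) - e 0 1 C).Finite := by
    have h3 : (fun C : ℤ => e 0 1 (C + 2) - e 0 1 C) = fun C => e 1 1 C - e 0 1 C := by
      funext C
      rw [← e_shift]
      norm_num
    rw [h3]
    exact e_fin one_pos one_pos
  have h3 : ∑ᶠ C, (e x M (C + 2) - e 0 1 C) =
      ∑ᶠ C, ((e x M (C + 2) - e 0 1 (C + 2)) + (e 0 1 (C + 2) - e 0 1 C)) :=
    finsum_congr fun C => by ring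
  rw [h1, h3, finsum_add_distrib hf hg, h2, E_shift0, add_zero]

theorem E_add_mul {x M : ℤ} (hM : 0 < M) (k : ℤ) : E (x + M * k) M = E x M := by
  induction k using Int.induction_on with
  | zero => rw [mul_zero, add_zero]
  | succ n ih =>
    have h : x + M * ((n : ℤ) + 1) = (x + M * n) + M := by ring
    rw [h, E_add hM, ih]
  | pred n ih =>
    have h : x + M * (-(n : ℤ)) = (x + M * (-(n : ℤ) - 1)) + M := by ring
    rw [h, E_add hM] at ih
    exact ih

theorem E_small {x M : ℤ} (hM : 0 < M) (h0 : 0 ≤ x) (h1 : x < M) :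
    E x M = -(if x = 0 ∨ 2 * x = M then 0 else if 2 * x < M then 1 else -1) := by
  have hs : Function.support (fun C : ℤ => e x M C - e 0 1 C) ⊆
      (({-1, 0} : Finset ℤ) : Set ℤ) := by
    intro C hC
    have h2 : e x M C - e 0 1 C ≠ 0 := hC
    by_contra h
    apply h2
    unfold e
    simp only [Finset.coe_insert, Finset.coe_singleton, Set.mem_insert_iff,
      Set.mem_singleton_iff, not_or] at h
    rcases lt_or_ge C (-1) with h3 | h3
    · rw [Int.sign_eq_neg_one_of_neg, Int.sign_eq_neg_one_of_neg, sub_self]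
      · omega
      · nlinarith
    · have h4 : 1 ≤ C := by omega
      rw [Int.sign_eq_one_of_pos, Int.sign_eq_one_of_pos, sub_self]
      · omega
      · nlinarith
  unfold E
  rw [finsum_eq_sum_of_support_subset _ hs]
  have hne : (-1 : ℤ) ∉ ({0} : Finset ℤ) := by decide
  rw [Finset.sum_insert hne, Finset.sum_singleton]
  have w0 : w 0 = -1 := rfl
  have w1 : w (-1) = 1 := rfl
  unfold e
  rw [w0, w1]
  have e1 : Int.sign (2 * 0 + -1 * 1) = -1 := rfl
  have e2 : Int.sign (2 * 0 + 0 * 1) = 0 := rfl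
  rw [e1, e2, zero_mul, add_zero]
  have e3 : 2 * x + -1 * M = 2 * x - M := by ring
  rw [e3]
  rcases eq_or_lt_of_le h0 with h2 | h2
  · rw [if_pos (Or.inl h2.symm), ← h2]
    rw [Int.sign_eq_neg_one_of_neg (a := 2 * 0 - M) (by omega)]
    rfl
  · rw [Int.sign_eq_one_of_pos (a := 2 * x) (by omega)]
    rcases lt_trichotomy (2 * x) M with h3 | h3 | h3
    · rw [if_neg (by omega), if_pos h3, Int.sign_eq_neg_one_of_neg (by omega)]
      rfl
    · rw [if_pos (Or.inr h3), h3, sub_self]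
      rfl
    · rw [if_neg (by omega), if_neg (by omega), Int.sign_eq_one_of_pos (by omega)]
      rfl

theorem E_eq {x M : ℤ} (hM : 0 < M) : E x M = -sg x M := by
  have h1 := E_add_mul (x := x % M) hM (x / M)
  rw [Int.emod_add_mul_ediv] at h1
  rw [h1, E_small hM (Int.emod_nonneg _ hM.ne') (Int.emod_lt_of_pos _ hM)]
  rfl

theorem e_sum {x M y N : ℤ} (hM : 0 < M) (hN : 0 < N) :
    ∑ᶠ C, (e x M C - e y N C) = sg y N - sg x M := by
  rw [E_diff hM hN, E_eq hM, E_eq hN]
  ring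

/-! ### the forms vanishing at a cusp -/

theorem sign_mul_pos {M z : ℤ} (hM : 0 < M) : Int.sign (M * z) = Int.sign z := by
  rw [Int.sign_mul, Int.sign_eq_one_of_pos hM, one_mul]

/-- sums over a family -/
theorem finsum_family {f : ℤ × ℤ × ℤ → ℤ} {i : ℤ → ℤ × ℤ × ℤ} (hi : Function.Injective i)
    (hf : ∀ q, f q ≠ 0 → q ∈ Set.range i) : ∑ᶠ q, f q = ∑ᶠ C, f (i C) := by
  rw [← finsum_mem_range hi, finsum_mem_def]
  apply finsum_congr
  intro q
  by_cases hq : q ∈ Set.range i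
  · rw [Set.indicator_of_mem hq]
  · rw [Set.indicator_of_notMem hq]
    by_contra h
    exact hq (hf q h)

theorem finite_family {f : ℤ × ℤ × ℤ → ℤ} {i : ℤ → ℤ × ℤ × ℤ}
    (hf : ∀ q, f q ≠ 0 → q ∈ Set.range i) (h : (Function.support fun C => f (i C)).Finite) :
    (Function.support f).Finite := by
  refine (h.image i).subset ?_
  intro q hq
  obtain ⟨C, rfl⟩ := hf q hq
  exact ⟨C, hq, rfl⟩

theorem inF_inf {q : ℤ × ℤ × ℤ} : (inF q ∧ q.1 = 0) ↔ ∃ C : ℤ, q = (0, 2, C) := by
  obtain ⟨A, B, C⟩ := q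
  constructor
  · rintro ⟨⟨h1, h2, h3⟩, h4⟩
    simp only at h1 h2 h3 h4
    subst h4
    have h5 : (B - 2) * (B + 2) = 0 := by linear_combination h1
    rcases mul_eq_zero.1 h5 with h6 | h6
    · have : B = 2 := by omega
      subst this
      exact ⟨C, rfl⟩
    · omega
  · rintro ⟨C', h⟩
    simp only [Prod.mk.injEq] at h
    obtain ⟨rfl, rfl, rfl⟩ := h
    exact ⟨⟨by norm_num, by norm_num, by norm_num⟩, rfl⟩

theorem inF_zero {q : ℤ × ℤ × ℤ} : (inF q ∧ q.2.2 = 0) ↔ ∃ C : ℤ, q = (17 * C, 2, 0) := by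
  obtain ⟨A, B, C⟩ := q
  constructor
  · rintro ⟨⟨h1, ⟨A1, h2⟩, h3⟩, h4⟩
    simp only at h1 h2 h3 h4
    subst h4
    have h5 : (B - 2) * (B + 2) = 0 := by linear_combination h1
    rcases mul_eq_zero.1 h5 with h6 | h6
    · have : B = 2 := by omega
      subst this
      exact ⟨A1, by rw [h2]⟩
    · omega
  · rintro ⟨C', h⟩
    simp only [Prod.mk.injEq] at h
    obtain ⟨rfl, rfl, rfl⟩ := h
    exact ⟨⟨by norm_num, ⟨C', rfl⟩, by norm_num⟩, rfl⟩

theorem Zi_family {x M y N : ℤ} (hM : 0 < M) (hN : 0 < N) (C : ℤ) :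
    Zi x M y N (0, 2, C) = e x M C - e y N C := by
  unfold Zi
  rw [if_pos (inF_inf.2 ⟨C, rfl⟩)]
  have h1 : ev (0, 2, C) x M = M * (2 * x + C * M) := by unfold ev; ring
  have h2 : ev (0, 2, C) y N = N * (2 * y + C * N) := by unfold ev; ring
  have h3 : kq (0, 2, C) = w C := by
    unfold kq w
    simp
  rw [h1, h2, h3, sign_mul_pos hM, sign_mul_pos hN]
  unfold e
  ring

theorem Zi_range {x M y N : ℤ} (q : ℤ × ℤ × ℤ) (h : Zi x M y N q ≠ 0) :
    q ∈ Set.range (fun C : ℤ => ((0 : ℤ), (2 : ℤ), C)) := by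
  unfold Zi at h
  by_cases hq : inF q ∧ q.1 = 0
  · obtain ⟨C, rfl⟩ := inF_inf.1 hq
    exact ⟨C, rfl⟩
  · rw [if_neg hq] at h
    exact absurd rfl h

theorem Zi_inj : Function.Injective (fun C : ℤ => ((0 : ℤ), (2 : ℤ), C)) := by
  intro C C' h
  simp only [Prod.mk.injEq, true_and] at h
  exact h

theorem Zi_sum {x M y N : ℤ} (hM : 0 < M) (hN : 0 < N) :
    ∑ᶠ q, Zi x M y N q = sg y N - sg x M := by
  rw [finsum_family Zi_inj Zi_range, ← e_sum hM hN]
  exact finsum_congr fun C => Zi_family hM hN C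

theorem Zi_fin {x M y N : ℤ} (hM : 0 < M) (hN : 0 < N) :
    (Function.support (Zi x M y N)).Finite := by
  refine finite_family Zi_range ?_
  have h : (fun C : ℤ => Zi x M y N (0, 2, C)) = fun C => e x M C - e y N C :=
    funext fun C => Zi_family hM hN C
  rw [h]
  exact e_fin hM hN

theorem Zo_family {c d c' d' : ℤ} (hd : 0 < d) (hd' : 0 < d') (C : ℤ) :
    Zo d (-(17 * c)) d' (-(17 * c')) (17 * C, 2, 0) = e (-c) d C - e (-c') d' C := by
  unfold Zo
  rw [if_pos (inF_zero.2 ⟨C, rfl⟩)]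
  have h1 : ev (17 * C, 2, 0) d (-(17 * c)) = (17 * d) * (2 * (-c) + C * d) := by unfold ev; ring
  have h2 : ev (17 * C, 2, 0) d' (-(17 * c')) = (17 * d') * (2 * (-c') + C * d') := by
    unfold ev; ring
  have h3 : kq (17 * C, 2, 0) = w C := by
    unfold kq w
    have h4 : ((2 : ℤ) ∣ 17 * C ∧ (2 : ℤ) ∣ 0) ↔ (2 : ℤ) ∣ C := by
      constructor
      · rintro ⟨h4, -⟩
        omega
      · intro h4
        exact ⟨by omega, dvd_zero _⟩
    simp only [h4]
  rw [h1, h2, h3, sign_mul_pos (by omega), sign_mul_pos (by omega)]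
  unfold e
  ring

theorem Zo_range {x M y N : ℤ} (q : ℤ × ℤ × ℤ) (h : Zo x M y N q ≠ 0) :
    q ∈ Set.range (fun C : ℤ => ((17 * C : ℤ), (2 : ℤ), (0 : ℤ))) := by
  unfold Zo at h
  by_cases hq : inF q ∧ q.2.2 = 0
  · obtain ⟨C, rfl⟩ := inF_zero.1 hq
    exact ⟨C, rfl⟩
  · rw [if_neg hq] at h
    exact absurd rfl h

theorem Zo_inj : Function.Injective (fun C : ℤ => ((17 * C : ℤ), (2 : ℤ), (0 : ℤ))) := by
  intro C C' h
  simp only [Prod.mk.injEq] at h
  omega

theorem sg_neg {x M : ℤ} (hM : 0 < M) : sg (-x) M = -sg x M := by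
  unfold sg
  have h0 := Int.emod_nonneg x hM.ne'
  have h1 := Int.emod_lt_of_pos x hM
  by_cases hx : x % M = 0
  · have h2 : (-x) % M = 0 := by
      exact Int.emod_eq_zero_of_dvd ((Int.dvd_of_emod_eq_zero hx).neg_right)
    rw [if_pos (Or.inl hx), if_pos (Or.inl h2), neg_zero]
  · have h2 : (-x) % M = M - x % M := by
      have h3 : -x = (M - x % M) + M * (-(x / M) - 1) := by
        have := Int.emod_add_mul_ediv x M
        linear_combination this
      rw [h3, Int.add_mul_emod_self_left]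
      exact Int.emod_eq_of_lt (by omega) (by omega)
    rw [h2]
    split_ifs <;> omega

theorem Zo_sum {c d c' d' : ℤ} (hd : 0 < d) (hd' : 0 < d') :
    ∑ᶠ q, Zo d (-(17 * c)) d' (-(17 * c')) q = sg c d - sg c' d' := by
  rw [finsum_family Zo_inj Zo_range]
  have h1 := e_sum (x := -c) (y := -c') hd hd'
  rw [sg_neg hd, sg_neg hd'] at h1
  have h2 : ∑ᶠ C : ℤ, Zo d (-(17 * c)) d' (-(17 * c')) (17 * C, 2, 0) =
      ∑ᶠ C, (e (-c) d C - e (-c') d' C) := finsum_congr fun C => Zo_family hd hd' C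
  rw [h2, h1]
  ring

theorem Zo_fin {c d c' d' : ℤ} (hd : 0 < d) (hd' : 0 < d') :
    (Function.support (Zo d (-(17 * c)) d' (-(17 * c')))).Finite := by
  refine finite_family Zo_range ?_
  have h : (fun C : ℤ => Zo d (-(17 * c)) d' (-(17 * c')) (17 * C, 2, 0)) =
      fun C => e (-c) d C - e (-c') d' C := funext fun C => Zo_family hd hd' C
  rw [h]
  exact e_fin hd hd'

end

end Pool.Agent.N975.S17
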