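import Pool.Agent.N972.P17.Defs
import Pool.Agent.N975.SymCore

/-!
# The counting cocycle of the forms of discriminant `4` and level `17`

The geodesics may end at the cusps: the regularized sums over the forms vanishing at a cusp are
the signs `sg`.
-/

set_option autoImplicit false

namespace Pool.Agent.N975.S17

open Pool.Agent.N972.P17
open Pool.Agent.N975.Sym (ev kq act act_inv eqv ev_act kq_eq dec2 ev10 ev_neg)

noncomputable section

/-- the set of forms -/
def inF (q : ℤ × ℤ × ℤ) : Prop :=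
  q.2.1 ^ 2 - 4 * q.1 * q.2.2 = 4 ∧ (17 : ℤ) ∣ q.1 ∧ q.2.1 % 34 = 2

theorem inF_act {a b c d : ℤ} (h : a * d - b * c = 1) (hc : (17 : ℤ) ∣ c) {q : ℤ × ℤ × ℤ}
    (hq : inF q) : inF (act a b c d q) := by
  obtain ⟨A, B, C⟩ := q
  obtain ⟨c1, rfl⟩ := hc
  obtain ⟨h1, ⟨A1, h2⟩, h3⟩ := hq
  simp only at h1 h2 h3
  refine ⟨?_, ?_, ?_⟩
  · unfold act
    simp only
    linear_combination (a * d - b * (17 * c1)) ^ 2 * h1 + 4 * (a * d - b * (17 * c1) + 1) * h
  · unfold act
    simp only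
    exact ⟨A1 * a ^ 2 + B * a * c1 + C * c1 ^ 2 * 17, by rw [h2]; ring⟩
  · unfold act
    simp only
    have h4 : 2 * A * a * b + B * (a * d + b * (17 * c1)) + 2 * C * (17 * c1) * d =
        B + 34 * (A1 * a * b + B * b * c1 + C * c1 * d) := by
      rw [h2]; linear_combination B * h
    rw [h4]
    omega

theorem inF_act_iff {a b c d : ℤ} (h : a * d - b * c = 1) (hc : (17 : ℤ) ∣ c) {q : ℤ × ℤ × ℤ} :
    inF (act a b c d q) ↔ inF q := by
  refine ⟨fun hq => ?_, inF_act h hc⟩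
  have h' : d * a - (-b) * (-c) = 1 := by linear_combination h
  have h1 := inF_act h' (hc.neg_right) hq
  rwa [act_inv h] at h1

theorem kq_act {a b c d : ℤ} (h : a * d - b * c = 1) {q : ℤ × ℤ × ℤ} (hq : inF q) :
    kq (act a b c d q) = kq q := by
  obtain ⟨A, B, C⟩ := q
  have h1 := hq.2.2
  simp only at h1
  rw [kq_eq, kq_eq]
  unfold act
  simp only
  have e1 : (B : ZMod 2) = 0 := by
    rw [ZMod.intCast_zmod_eq_zero_iff_dvd]
    norm_num
    omega
  have e2 : (a : ZMod 2) * d - b * c = 1 := by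
    have := congrArg (fun z : ℤ => (z : ZMod 2)) h
    push_cast at this
    exact this
  have e3 := dec2 A C a b c d e2
  push_cast
  rw [e1]
  exact e3

open Classical in
/-- the difference of the signs at two points if no sign vanishes -/
def U (x M y N : ℤ) (q : ℤ × ℤ × ℤ) : ℤ :=
  if inF q ∧ ev q x M ≠ 0 ∧ ev q y N ≠ 0 then
    kq q * (Int.sign (ev q x M) - Int.sign (ev q y N)) else 0

open Classical in
/-- the difference of the signs for the forms vanishing at infinity -/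
def Zi (x M y N : ℤ) (q : ℤ × ℤ × ℤ) : ℤ :=
  if inF q ∧ q.1 = 0 then kq q * (Int.sign (ev q x M) - Int.sign (ev q y N)) else 0

open Classical in
/-- the difference of the signs for the forms vanishing at zero -/
def Zo (x M y N : ℤ) (q : ℤ × ℤ × ℤ) : ℤ :=
  if inF q ∧ q.2.2 = 0 then kq q * (Int.sign (ev q x M) - Int.sign (ev q y N)) else 0

theorem U_act {a b c d : ℤ} (h : a * d - b * c = 1) (hc : (17 : ℤ) ∣ c) (x M y N : ℤ)
    (q : ℤ × ℤ × ℤ) : U (a * x + b * M) (c * x + d * M) (a * y + b * N) (c * y + d * N) q =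
      U x M y N (act a b c d q) := by
  unfold U
  rw [ev_act, ev_act]
  by_cases hq : inF q
  · have h1 := inF_act h hc hq
    simp only [hq, h1, true_and, kq_act h hq]
  · have h1 : ¬ inF (act a b c d q) := fun h2 => hq ((inF_act_iff h hc).1 h2)
    simp only [hq, h1, false_and, if_false]

theorem ev01 (q : ℤ × ℤ × ℤ) : ev q 0 1 = q.2.2 := by
  unfold ev; ring

/-- the forms have the same sign at the two cusps -/
theorem U_zero_inf (q : ℤ × ℤ × ℤ) : U 0 1 1 0 q = 0 := by
  unfold U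
  by_cases hq : inF q ∧ ev q 0 1 ≠ 0 ∧ ev q 1 0 ≠ 0
  · rw [if_pos hq]
    rw [ev01, ev10] at *
    obtain ⟨⟨h1, ⟨A1, h2⟩, h3⟩, h4, h5⟩ := hq
    have h6 : 0 < q.1 * q.2.2 := by
      have h7 : 0 ≤ q.1 * q.2.2 := by
        have h8 : 4 ≤ q.2.1 ^ 2 := by
          have h9 : 2 ≤ |q.2.1| := by
            rcases abs_cases q.2.1 with ⟨h, _⟩ | ⟨h, _⟩ <;> omega
          rw [← sq_abs]
          nlinarith
        nlinarith
      exact lt_of_le_of_ne h7 (Ne.symm (mul_ne_zero h5 h4))
    rcases pos_and_pos_or_neg_and_neg_of_mul_pos h6 with ⟨h7, h8⟩ | ⟨h7, h8⟩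
    · rw [Int.sign_eq_one_of_pos h7, Int.sign_eq_one_of_pos h8]
      ring
    · rw [Int.sign_eq_neg_one_of_neg h7, Int.sign_eq_neg_one_of_neg h8]
      ring
  · rw [if_neg hq]

/-- the termwise identity for the signs -/
theorem sgn_id (al be de ep : ℤ) (h1 : al = 0 ∨ al = 1 ∨ al = -1) (h2 : be = 0 ∨ be = 1 ∨ be = -1)
    (h3 : de = 0 ∨ de = 1 ∨ de = -1) (h4 : ep = 0 ∨ ep = 1 ∨ ep = -1) (k : ℤ) :
    (if al ≠ 0 ∧ be ≠ 0 then k * (al - be) else 0) =
      (if al ≠ 0 ∧ de ≠ 0 then k * (al - de) else 0) +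
      (if de ≠ 0 ∧ ep ≠ 0 then k * (de - ep) else 0) +
      (if ep ≠ 0 ∧ be ≠ 0 then k * (ep - be) else 0) +
      (if al = 0 then k * (be - de) else 0) - (if be = 0 then k * (al - ep) else 0) +
      (if de = 0 then k * (al - ep) else 0) - (if ep = 0 then k * (be - de) else 0) := by
  rcases h1 with rfl | rfl | rfl <;> rcases h2 with rfl | rfl | rfl <;>
    rcases h3 with rfl | rfl | rfl <;> rcases h4 with rfl | rfl | rfl <;>
    simp <;> ring

theorem sign_cases (z : ℤ) : Int.sign z = 0 ∨ Int.sign z = 1 ∨ Int.sign z = -1 := by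
  rcases lt_trichotomy z 0 with h | h | h
  · right; right; exact Int.sign_eq_neg_one_of_neg h
  · left; rw [h]; rfl
  · right; left; exact Int.sign_eq_one_of_pos h

end

end Pool.Agent.N975.S17
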