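import Pool.Agent.N975.S17.Bd

/-!
# SYM: the counting function gives a homomorphism on `Γ₀(17)`
-/

set_option autoImplicit false

namespace Pool.Agent.N975.S17

open Pool.Agent.N972.P17
open Pool.Agent.N975.Sym (ev kq act act_inv eqv ev_act kq_eq dec2 ev10 ev_neg key bound)

noncomputable section

theorem U_ne {x M : ℤ} {q : ℤ × ℤ × ℤ} (h : U 1 0 x M q ≠ 0) :
    inF q ∧ q.1 * ev q x M < 0 := by
  unfold U at h
  by_cases hq : inF q ∧ ev q 1 0 ≠ 0 ∧ ev q x M ≠ 0
  · refine ⟨hq.1, ?_⟩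
    rw [if_pos hq, ev10] at h
    have h1 : Int.sign (ev q x M) ≠ Int.sign q.1 := by
      intro h2
      apply h
      rw [h2, sub_self, mul_zero]
    have h2 := hq.2.1
    rw [ev10] at h2
    have h3 := hq.2.2
    rcases lt_or_gt_of_ne h2 with h4 | h4
    · rcases lt_or_gt_of_ne h3 with h5 | h5
      · exact absurd (by rw [Int.sign_eq_neg_one_of_neg h4, Int.sign_eq_neg_one_of_neg h5]) h1
      · exact mul_neg_of_neg_of_pos h4 h5
    · rcases lt_or_gt_of_ne h3 with h5 | h5
      · exact mul_neg_of_pos_of_neg h4 h5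
      · exact absurd (by rw [Int.sign_eq_one_of_pos h4, Int.sign_eq_one_of_pos h5]) h1
  · rw [if_neg hq] at h
    exact absurd rfl h

theorem U_fin {x M : ℤ} (hM : M ≠ 0) : (Function.support (U 1 0 x M)).Finite := by
  set K : ℤ := 4 * M ^ 2 with hK
  set L : ℤ := 2 * |M| + 2 * K * |x| with hL
  set R : ℤ := L ^ 2 + 4 with hR
  refine ((Set.finite_Icc (-K) K).prod ((Set.finite_Icc (-L) L).prod
    (Set.finite_Icc (-R) R))).subset ?_
  intro q hq
  have h1 := U_ne hq
  have hA0 : q.1 ≠ 0 := by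
    intro h0
    have := h1.2
    rw [h0, zero_mul] at this
    exact lt_irrefl _ this
  obtain ⟨h2, h3⟩ := bound h1.1.1 h1.2
  have hA : |q.1| ≤ K := by
    have := abs_nonneg q.1
    omega
  have hM1 : 1 ≤ |M| := Int.one_le_abs hM
  have hB : |q.2.1| ≤ L := by
    have h4 : |q.2.1 * M| ≤ |2 * q.1 * x + q.2.1 * M| + |2 * q.1 * x| := by
      have h5 : q.2.1 * M = (2 * q.1 * x + q.2.1 * M) - 2 * q.1 * x := by ring
      calc |q.2.1 * M| = |(2 * q.1 * x + q.2.1 * M) - 2 * q.1 * x| := by rw [← h5]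
        _ ≤ _ := abs_sub _ _
    have h6 : |2 * q.1 * x| ≤ 2 * K * |x| := by
      rw [abs_mul, abs_mul]
      have : |(2:ℤ)| = 2 := rfl
      rw [this]
      have := abs_nonneg x
      nlinarith
    have h7 : |q.2.1| ≤ |q.2.1 * M| := by
      rw [abs_mul]
      exact le_mul_of_one_le_right (abs_nonneg _) hM1
    rw [hL]
    linarith
  have hC : |q.2.2| ≤ R := by
    have h4 : 4 * (q.1 * q.2.2) = q.2.1 ^ 2 - 4 := by
      have := h1.1.1
      linarith
    have h5 : 4 * (|q.1| * |q.2.2|) ≤ q.2.1 ^ 2 + 4 := by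
      rw [← abs_mul]
      rcases abs_cases (q.1 * q.2.2) with ⟨h6, _⟩ | ⟨h6, _⟩ <;> rw [h6] <;>
        nlinarith [sq_nonneg q.2.1]
    have h6 : q.2.1 ^ 2 ≤ L ^ 2 := by
      rw [← sq_abs q.2.1]
      exact pow_le_pow_left₀ (abs_nonneg _) hB 2
    have h7 : 1 ≤ |q.1| := Int.one_le_abs hA0
    have h8 : |q.2.2| ≤ |q.1| * |q.2.2| := le_mul_of_one_le_left (abs_nonneg _) h7
    have h9 := abs_nonneg q.2.2
    rw [hR]
    linarith
  refine ⟨?_, ?_, ?_⟩
  · exact abs_le.1 hA
  · exact abs_le.1 hB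
  · exact abs_le.1 hC

open Classical in
/-- the part with `B = 2` -/
def f2 (x M : ℤ) (q : ℤ × ℤ × ℤ) : ℤ :=
  if inF q ∧ 0 < q.1 ∧ ev q x M < 0 then cQ q else 0

open Classical in
/-- the part with `B = -2` -/
def f32 (x M : ℤ) (q : ℤ × ℤ × ℤ) : ℤ :=
  if inF (-q) ∧ 0 < q.1 ∧ ev q x M < 0 then cQ q else 0

theorem cQ_pos {q : ℤ × ℤ × ℤ} (hq : inF q) : cQ q = kq q := by
  unfold cQ kq
  rw [if_pos hq.2.2, one_mul]

theorem cQ_neg {q : ℤ × ℤ × ℤ} (hq : inF q) : cQ (-q) = -kq q := by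
  unfold cQ kq
  have h : ¬ ((-q).2.1 % 34 = 2) := by
    have := hq.2.2
    rw [Prod.snd_neg, Prod.fst_neg]
    omega
  rw [if_neg h]
  simp only [Prod.fst_neg, Prod.snd_neg, dvd_neg]
  ring

theorem U_split (x M : ℤ) (q : ℤ × ℤ × ℤ) :
    U 1 0 x M q = 2 * f2 x M q + 2 * f32 x M (-q) := by
  unfold U f2 f32
  rw [neg_neg, ev_neg, ev10]
  simp only [Prod.fst_neg]
  by_cases hq : inF q ∧ q.1 ≠ 0 ∧ ev q x M ≠ 0
  · rw [if_pos hq, cQ_pos hq.1, cQ_neg hq.1]
    obtain ⟨hF, h2, h3⟩ := hq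
    rcases lt_or_gt_of_ne h2 with h4 | h4
    · have n1 : ¬ (inF q ∧ 0 < q.1 ∧ ev q x M < 0) := fun h => by linarith [h.2.1]
      rw [if_neg n1, Int.sign_eq_neg_one_of_neg h4]
      rcases lt_or_gt_of_ne h3 with h5 | h5
      · have n2 : ¬ (inF q ∧ 0 < -q.1 ∧ -ev q x M < 0) := fun h => by linarith [h.2.2]
        rw [if_neg n2, Int.sign_eq_neg_one_of_neg h5]
        ring
      · have n2 : (inF q ∧ 0 < -q.1 ∧ -ev q x M < 0) := ⟨hF, by linarith, by linarith⟩
        rw [if_pos n2, Int.sign_eq_one_of_pos h5]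
        ring
    · have n1 : ¬ (inF q ∧ 0 < -q.1 ∧ -ev q x M < 0) := fun h => by linarith [h.2.1]
      rw [if_neg n1, Int.sign_eq_one_of_pos h4]
      rcases lt_or_gt_of_ne h3 with h5 | h5
      · have n2 : (inF q ∧ 0 < q.1 ∧ ev q x M < 0) := ⟨hF, h4, h5⟩
        rw [if_pos n2, Int.sign_eq_neg_one_of_neg h5]
        ring
      · have n2 : ¬ (inF q ∧ 0 < q.1 ∧ ev q x M < 0) := fun h => by linarith [h.2.2]
        rw [if_neg n2, Int.sign_eq_one_of_pos h5]
        ring
  · have n1 : ¬ (inF q ∧ 0 < q.1 ∧ ev q x M < 0) := fun h => hq ⟨h.1, h.2.1.ne', h.2.2.ne⟩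
    have n2 : ¬ (inF q ∧ 0 < -q.1 ∧ -ev q x M < 0) := fun h =>
      hq ⟨h.1, (by have := h.2.1; omega), (by have := h.2.2; omega)⟩
    rw [if_neg hq, if_neg n1, if_neg n2]
    ring

theorem f_disj {x M : ℤ} (q : ℤ × ℤ × ℤ) : f2 x M q = 0 ∨ f32 x M (-q) = 0 := by
  by_contra h
  rw [not_or] at h
  obtain ⟨h1, h2⟩ := h
  have h5 : inF q ∧ 0 < q.1 ∧ ev q x M < 0 := by
    unfold f2 at h1
    by_contra h6
    rw [if_neg h6] at h1
    exact h1 rfl
  have h4 : inF (- -q) ∧ 0 < (-q).1 ∧ ev (-q) x M < 0 := by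
    unfold f32 at h2
    by_contra h6
    rw [if_neg h6] at h2
    exact h2 rfl
  have h7 := h4.2.1
  rw [Prod.fst_neg] at h7
  linarith [h5.2.1]

theorem fin2 {x M : ℤ} (hM : M ≠ 0) : (Function.support (f2 x M)).Finite := by
  refine (U_fin (x := x) hM).subset ?_
  intro q hq
  have h1 : f2 x M q ≠ 0 := hq
  rcases f_disj (x := x) (M := M) q with h2 | h2
  · exact absurd h2 h1
  · rw [Function.mem_support, U_split, h2]
    intro h3
    apply h1
    linarith

theorem fin32' {x M : ℤ} (hM : M ≠ 0) : (Function.support (fun q => f32 x M (-q))).Finite := by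
  refine (U_fin (x := x) hM).subset ?_
  intro q hq
  have h1 : f32 x M (-q) ≠ 0 := hq
  rcases f_disj (x := x) (M := M) q with h2 | h2
  · rw [Function.mem_support, U_split, h2]
    intro h3
    apply h1
    linarith
  · exact absurd h2 h1

theorem fin32 {x M : ℤ} (hM : M ≠ 0) : (Function.support (f32 x M)).Finite := by
  have h := (fin32' (x := x) hM).preimage ((neg_injective (G := ℤ × ℤ × ℤ)).injOn)
  refine h.subset ?_
  intro q hq
  show f32 x M (- -q) ≠ 0
  rw [neg_neg]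
  exact hq

theorem Fm_split (q : ℤ × ℤ × ℤ) : Fm q ↔ (inF q ∨ inF (-q)) := by
  obtain ⟨A, B, C⟩ := q
  unfold Fm inF
  simp only [Prod.fst_neg, Prod.snd_neg]
  constructor
  · rintro ⟨h1, h2, h3 | h3⟩
    · left
      exact ⟨h1, h2, h3⟩
    · right
      exact ⟨by linear_combination h1, (dvd_neg).2 h2, by omega⟩
  · rintro (⟨h1, h2, h3⟩ | ⟨h1, h2, h3⟩)
    · exact ⟨h1, h2, Or.inl h3⟩
    · exact ⟨by linear_combination h1, (dvd_neg).1 h2, Or.inr (by omega)⟩

theorem U_sum {x M : ℤ} (hM : M ≠ 0) : ∑ᶠ q, U 1 0 x M q = 2 * Fp x M := by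
  classical
  have h1 : Fp x M = ∑ᶠ q, (f2 x M q + f32 x M q) := by
    unfold Fp
    apply finsum_congr
    intro q
    unfold f2 f32
    have hex : ¬ (inF q ∧ inF (-q)) := by
      rintro ⟨⟨_, _, h1⟩, ⟨_, _, h2⟩⟩
      rw [Prod.snd_neg, Prod.fst_neg] at h2
      omega
    have he : ev q x M = q.1 * x ^ 2 + q.2.1 * x * M + q.2.2 * M ^ 2 := rfl
    rw [← he]
    by_cases hs : 0 < q.1 ∧ ev q x M < 0
    · by_cases h3 : inF q
      · have h4 : ¬ inF (-q) := fun h => hex ⟨h3, h⟩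
        rw [if_pos ⟨(Fm_split q).2 (Or.inl h3), hs⟩, if_pos ⟨h3, hs⟩, if_neg (fun h => h4 h.1),
          add_zero]
      · by_cases h4 : inF (-q)
        · rw [if_pos ⟨(Fm_split q).2 (Or.inr h4), hs⟩, if_neg (fun h => h3 h.1), if_pos ⟨h4, hs⟩,
            zero_add]
        · have h5 : ¬ Fm q := fun h => ((Fm_split q).1 h).elim h3 h4
          rw [if_neg (fun h => h5 h.1), if_neg (fun h => h3 h.1), if_neg (fun h => h4 h.1),
            add_zero]
    · rw [if_neg (fun h => hs h.2), if_neg (fun h => hs h.2), if_neg (fun h => hs h.2), add_zero]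
  have h2 : ∑ᶠ q, f32 x M (-q) = ∑ᶠ q, f32 x M q :=
    finsum_comp_equiv (Equiv.neg (ℤ × ℤ × ℤ)) (f := f32 x M)
  have h3 : ∑ᶠ q, U 1 0 x M q = 2 * (∑ᶠ q, f2 x M q) + 2 * (∑ᶠ q, f32 x M (-q)) := by
    rw [finsum_congr (U_split x M), finsum_add_distrib, mul_finsum, mul_finsum]
    · exact (fin2 hM).subset (Function.support_mul_subset_right _ _)
    · exact (fin32' hM).subset (Function.support_mul_subset_right _ _)
  rw [h1, h3, h2, finsum_add_distrib (fin2 hM) (fin32 hM)]
  ring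

/-- the termwise identity -/
theorem U_id {a b c d a' b' c' d' : ℤ} (h : a * d - b * (17 * c) = 1)
    (h' : a' * d' - b' * (17 * c') = 1)
    (h'' : (a * a' + b * (17 * c')) * (17 * c * b' + d * d') -
      (a * b' + b * d') * (17 * (c * a' + d * c')) = 1) (q : ℤ × ℤ × ℤ) :
    U 1 0 (a * b' + b * d') (17 * c * b' + d * d') q =
      U 1 0 b d q + U 1 0 b' d' (eqv a b (17 * c) d h q) +
      Zi (a * b' + b * d') (17 * c * b' + d * d') b d q -
      Zo (17 * c * b' + d * d') (-(17 * (c * a' + d * c'))) d' (-(17 * c'))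
        (eqv (a * a' + b * (17 * c')) (a * b' + b * d') (17 * (c * a' + d * c'))
          (17 * c * b' + d * d') h'' q) +
      Zo d (-(17 * c)) 1 0 (eqv a b (17 * c) d h q) -
      Zi b' d' 0 1 (eqv a b (17 * c) d h q) := by
  have hc : (17 : ℤ) ∣ 17 * c := ⟨c, rfl⟩
  have hc2 : (17 : ℤ) ∣ 17 * (c * a' + d * c') := ⟨_, rfl⟩
  have hz := U_zero_inf (act a b (17 * c) d q)
  show U 1 0 (a * b' + b * d') (17 * c * b' + d * d') q =
      U 1 0 b d q + U 1 0 b' d' (act a b (17 * c) d q) +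
      Zi (a * b' + b * d') (17 * c * b' + d * d') b d q -
      Zo (17 * c * b' + d * d') (-(17 * (c * a' + d * c'))) d' (-(17 * c'))
        (act (a * a' + b * (17 * c')) (a * b' + b * d') (17 * (c * a' + d * c'))
          (17 * c * b' + d * d') q) +
      Zo d (-(17 * c)) 1 0 (act a b (17 * c) d q) -
      Zi b' d' 0 1 (act a b (17 * c) d q)
  by_cases hq : inF q
  · -- the values
    have q1 := inF_act h hc hq
    have q2 := inF_act h'' hc2 hq
    have k1 := kq_act h hq
    have k2 := kq_act h'' hq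
    have e1 : ev (act a b (17 * c) d q) b' d' = ev q (a * b' + b * d') (17 * c * b' + d * d') := by
      rw [ev_act]
    have e2 : ev (act a b (17 * c) d q) 1 0 = ev q a (17 * c) := by
      rw [ev_act, mul_one, mul_one, mul_zero, mul_zero, add_zero, add_zero]
    have e3 : ev (act a b (17 * c) d q) 0 1 = ev q b d := by
      rw [ev_act, mul_one, mul_one, mul_zero, mul_zero, zero_add, zero_add]
    have e4 : ev (act a b (17 * c) d q) d (-(17 * c)) = ev q 1 0 := by
      rw [ev_act]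
      congr 1
      · linear_combination h
      · ring
    have e5 : ev (act (a * a' + b * (17 * c')) (a * b' + b * d') (17 * (c * a' + d * c'))
        (17 * c * b' + d * d') q) (17 * c * b' + d * d') (-(17 * (c * a' + d * c'))) =
        ev q 1 0 := by
      rw [ev_act]
      congr 1
      · linear_combination h''
      · ring
    have e6 : ev (act (a * a' + b * (17 * c')) (a * b' + b * d') (17 * (c * a' + d * c'))
        (17 * c * b' + d * d') q) d' (-(17 * c')) = ev q a (17 * c) := by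
      rw [ev_act]
      congr 1
      · linear_combination a * h'
      · linear_combination (17 * c) * h'
    have c1 : (act a b (17 * c) d q).1 = ev q a (17 * c) := by
      rw [← e2, ev10]
    have c2 : (act a b (17 * c) d q).2.2 = ev q b d := by
      rw [← e3, ev01]
    have c3 : (act (a * a' + b * (17 * c')) (a * b' + b * d') (17 * (c * a' + d * c'))
        (17 * c * b' + d * d') q).2.2 = ev q (a * b' + b * d') (17 * c * b' + d * d') := by
      rw [← ev01, ev_act, mul_one, mul_one, mul_zero, mul_zero, zero_add, zero_add]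
    have c4 : q.1 = ev q 1 0 := (ev10 q).symm
    unfold U Zi Zo
    unfold U at hz
    simp only [hq, q1, q2, true_and, k1, k2, e1, e2, e3, e4, e5, e6, c1, c2, c3] at hz ⊢
    rw [c4]
    have hid := sgn_id (Int.sign (ev q 1 0))
      (Int.sign (ev q (a * b' + b * d') (17 * c * b' + d * d'))) (Int.sign (ev q b d))
      (Int.sign (ev q a (17 * c))) (sign_cases _) (sign_cases _) (sign_cases _) (sign_cases _)
      (kq q)
    simp only [ne_eq, Int.sign_eq_zero_iff_zero] at hid hz ⊢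
    linarith
  · have q1 : ¬ inF (act a b (17 * c) d q) := fun h2 => hq ((inF_act_iff h hc).1 h2)
    have q2 : ¬ inF (act (a * a' + b * (17 * c')) (a * b' + b * d') (17 * (c * a' + d * c'))
        (17 * c * b' + d * d') q) := fun h2 => hq ((inF_act_iff h'' hc2).1 h2)
    unfold U Zi Zo
    simp only [hq, q1, q2, false_and, if_false]
    ring

theorem fin_eqv {f : ℤ × ℤ × ℤ → ℤ} (hf : (Function.support f).Finite)
    (E : (ℤ × ℤ × ℤ) ≃ (ℤ × ℤ × ℤ)) : (Function.support fun q => f (E q)).Finite := by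
  have := hf.preimage (E.injective.injOn)
  exact this

theorem sum_eqv (f : ℤ × ℤ × ℤ → ℤ) (E : (ℤ × ℤ × ℤ) ≃ (ℤ × ℤ × ℤ)) :
    ∑ᶠ q, f (E q) = ∑ᶠ q, f q := finsum_comp_equiv E (f := f)

theorem sg_zero (M : ℤ) : sg 0 M = 0 := by
  unfold sg
  rw [if_pos]
  left
  exact Int.zero_emod M

theorem six {f f1 f2 f3 f4 f5 f6 : ℤ × ℤ × ℤ → ℤ}
    (hid : ∀ q, f q = f1 q + f2 q + f3 q - f4 q + f5 q - f6 q)
    (h1 : (Function.support f1).Finite) (h2 : (Function.support f2).Finite)
    (h3 : (Function.support f3).Finite) (h4 : (Function.support f4).Finite)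
    (h5 : (Function.support f5).Finite) (h6 : (Function.support f6).Finite) :
    ∑ᶠ q, f q = ∑ᶠ q, f1 q + ∑ᶠ q, f2 q + ∑ᶠ q, f3 q - ∑ᶠ q, f4 q + ∑ᶠ q, f5 q - ∑ᶠ q, f6 q := by
  have g1 : (Function.support fun q => f1 q + f2 q).Finite :=
    (h1.union h2).subset (Function.support_add f1 f2)
  have g2 : (Function.support fun q => f1 q + f2 q + f3 q).Finite :=
    (g1.union h3).subset (Function.support_add (fun q => f1 q + f2 q) f3)
  have g3 : (Function.support fun q => f1 q + f2 q + f3 q - f4 q).Finite :=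
    (g2.union h4).subset (Function.support_sub (fun q => f1 q + f2 q + f3 q) f4)
  have g4 : (Function.support fun q => f1 q + f2 q + f3 q - f4 q + f5 q).Finite :=
    (g3.union h5).subset (Function.support_add (fun q => f1 q + f2 q + f3 q - f4 q) f5)
  rw [finsum_congr hid, finsum_sub_distrib g4 h6, finsum_add_distrib g3 h5,
    finsum_sub_distrib g2 h4, finsum_add_distrib g1 h3, finsum_add_distrib h1 h2]

/-- **SYM** -/
theorem t_SYM : S_SYM := by
  intro a b c d a' b' c' d' h h' hd hd' hD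
  have g : a * d - b * (17 * c) = 1 := by linear_combination h
  have g' : a' * d' - b' * (17 * c') = 1 := by linear_combination h'
  have g'' : (a * a' + b * (17 * c')) * (17 * c * b' + d * d') -
      (a * b' + b * d') * (17 * (c * a' + d * c')) = 1 := by
    linear_combination g' + (a' * d' - b' * (17 * c')) * g
  have fU1 := U_fin (x := b) hd.ne'
  have fU2 := fin_eqv (U_fin (x := b') hd'.ne') (eqv a b (17 * c) d g)
  have fZ1 := Zi_fin (x := a * b' + b * d') (y := b) hD hd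
  have fZ2 := fin_eqv (Zo_fin (c := c * a' + d * c') (c' := c') hD hd')
    (eqv (a * a' + b * (17 * c')) (a * b' + b * d') (17 * (c * a' + d * c'))
      (17 * c * b' + d * d') g'')
  have fZ3' := Zo_fin (c := c) (c' := 0) hd one_pos
  rw [mul_zero, neg_zero] at fZ3'
  have fZ3 := fin_eqv fZ3' (eqv a b (17 * c) d g)
  have fZ4 := fin_eqv (Zi_fin (x := b') (y := 0) hd' one_pos) (eqv a b (17 * c) d g)
  have s3 := Zo_sum (c := c) (c' := 0) hd one_pos
  rw [mul_zero, neg_zero, sg_zero] at s3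
  have hU := six (U_id g g' g'') fU1 fU2 fZ1 fZ2 fZ3 fZ4
  rw [sum_eqv, sum_eqv, sum_eqv, sum_eqv, U_sum hd.ne', U_sum hd'.ne', U_sum hD.ne',
    Zi_sum hD hd, Zo_sum hD hd', s3, Zi_sum hd' one_pos, sg_zero] at hU
  unfold Gs
  linarith

end

end Pool.Agent.N975.S17
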